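import Pool.Graph.R_seed8.TH446.HN.Pair

/-! Counting walks of length two; joining pairings. -/

set_option autoImplicit false
set_option linter.unusedSectionVars false

namespace Pool.Agent.H65.TW

open Finset H331HC Pool.Agent.W292.RG

variable {V : Type} [Fintype V] [DecidableEq V]

/-- degree of `x` in `H` inside `W` -/
def dg (H : SimpleGraph V) [DecidableRel H.Adj] (W : Finset V) (x : V) : ℕ :=
  (W.filter (fun y => H.Adj x y)).card

/-- number of walks of length two from `x` in `H` inside `W` -/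
def tw (H : SimpleGraph V) [DecidableRel H.Adj] (W : Finset V) (x : V) : ℕ :=
  ∑ y ∈ W.filter (fun y => H.Adj x y), dg H W y

theorem dg_mono (H : SimpleGraph V) [DecidableRel H.Adj] {W W' : Finset V} (h : W ⊆ W') (x : V) :
    dg H W x ≤ dg H W' x :=
  card_le_card (filter_subset_filter _ h)

theorem tw_mono (H : SimpleGraph V) [DecidableRel H.Adj] {W W' : Finset V} (h : W ⊆ W') (x : V) :
    tw H W x ≤ tw H W' x := by
  unfold tw
  calc ∑ y ∈ W.filter (fun y => H.Adj x y), dg H W y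
      ≤ ∑ y ∈ W.filter (fun y => H.Adj x y), dg H W' y := sum_le_sum (fun y _ => dg_mono H h y)
    _ ≤ _ := sum_le_sum_of_subset (filter_subset_filter _ h)

theorem sum_codeg (H : SimpleGraph V) [DecidableRel H.Adj] (W : Finset V) (x : V) :
    ∑ y ∈ W, (W.filter (fun z => H.Adj x z ∧ H.Adj y z)).card = tw H W x := by
  unfold tw dg
  calc ∑ y ∈ W, (W.filter (fun z => H.Adj x z ∧ H.Adj y z)).card
      = ∑ y ∈ W, ∑ z ∈ W.filter (fun z => H.Adj x z), (if H.Adj z y then 1 else 0) := by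
        refine sum_congr rfl (fun y _ => ?_)
        rw [← Finset.card_filter, Finset.filter_filter]
        congr 1
        ext z
        simp only [mem_filter]
        constructor
        · rintro ⟨a, b, c⟩; exact ⟨a, b, c.symm⟩
        · rintro ⟨a, b, c⟩; exact ⟨a, b, c.symm⟩
    _ = ∑ z ∈ W.filter (fun z => H.Adj x z), ∑ y ∈ W, (if H.Adj z y then 1 else 0) := sum_comm
    _ = _ := by
        refine sum_congr rfl (fun z _ => ?_)
        rw [← Finset.card_filter]

/-- few vertices have many common neighbours with `x` -/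
theorem codeg_count (H : SimpleGraph V) [DecidableRel H.Adj] (W : Finset V) (κ : ℕ) (x : V) :
    (κ + 1) * (W.filter (fun y => κ < (W.filter (fun z => H.Adj x z ∧ H.Adj y z)).card)).card ≤
      tw H W x := by
  rw [← sum_codeg]
  set X : Finset V := W.filter (fun y => κ < (W.filter (fun z => H.Adj x z ∧ H.Adj y z)).card)
    with hX
  calc (κ + 1) * X.card = ∑ y ∈ X, (κ + 1) := by rw [sum_const, smul_eq_mul, mul_comm]
    _ ≤ ∑ y ∈ X, (W.filter (fun z => H.Adj x z ∧ H.Adj y z)).card :=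
        sum_le_sum (fun y hy => (mem_filter.1 hy).2)
    _ ≤ ∑ y ∈ W, (W.filter (fun z => H.Adj x z ∧ H.Adj y z)).card :=
        sum_le_sum_of_subset (filter_subset _ _)

theorem sum_sq (H : SimpleGraph V) [DecidableRel H.Adj] (W : Finset V) :
    ∑ x ∈ W, dg H W x ^ 2 = ∑ x ∈ W, tw H W x := by
  unfold tw
  calc ∑ x ∈ W, dg H W x ^ 2 = ∑ y ∈ W, ∑ x ∈ W, (if H.Adj x y then dg H W y else 0) := by
        refine sum_congr rfl (fun y _ => ?_)
        rw [← Finset.sum_filter, sum_const, smul_eq_mul, sq]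
        congr 1
        unfold dg
        congr 1
        ext z
        simp only [mem_filter]
        exact ⟨fun h => ⟨h.1, h.2.symm⟩, fun h => ⟨h.1, h.2.symm⟩⟩
    _ = ∑ x ∈ W, ∑ y ∈ W, (if H.Adj x y then dg H W y else 0) := sum_comm
    _ = _ := by
        refine sum_congr rfl (fun x _ => ?_)
        rw [← Finset.sum_filter]

/-- there are few vertices of large degree -/
theorem high_count (H : SimpleGraph V) [DecidableRel H.Adj] (W : Finset V) (S q : ℕ)
    (hS : ∀ x ∈ W, tw H W x ≤ S) (hW : 0 < W.card) :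
    (W.filter (fun x => W.card < q * dg H W x)).card * W.card ≤ q ^ 2 * S := by
  set X := W.filter (fun x => W.card < q * dg H W x) with hX
  have h1 : X.card * W.card ^ 2 ≤ q ^ 2 * (W.card * S) := by
    calc X.card * W.card ^ 2 = ∑ x ∈ X, W.card ^ 2 := by rw [sum_const, smul_eq_mul]
      _ ≤ ∑ x ∈ X, (q * dg H W x) ^ 2 := by
          refine sum_le_sum (fun x hx => ?_)
          exact Nat.pow_le_pow_left (mem_filter.1 hx).2.le 2
      _ = q ^ 2 * ∑ x ∈ X, dg H W x ^ 2 := by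
          rw [mul_sum]
          exact sum_congr rfl (fun x _ => by ring)
      _ ≤ q ^ 2 * ∑ x ∈ W, dg H W x ^ 2 :=
          Nat.mul_le_mul_left _ (sum_le_sum_of_subset (filter_subset _ _))
      _ = q ^ 2 * ∑ x ∈ W, tw H W x := by rw [sum_sq]
      _ ≤ q ^ 2 * ∑ x ∈ W, S := Nat.mul_le_mul_left _ (sum_le_sum (fun x hx => hS x hx))
      _ = q ^ 2 * (W.card * S) := by rw [sum_const, smul_eq_mul]
  have h2 : (X.card * W.card) * W.card ≤ (q ^ 2 * S) * W.card := by
    calc (X.card * W.card) * W.card = X.card * W.card ^ 2 := by ring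
      _ ≤ q ^ 2 * (W.card * S) := h1
      _ = (q ^ 2 * S) * W.card := by ring
  exact Nat.le_of_mul_le_mul_right h2 hW

/-- joining a choice of partners with a pairing of the rest -/
theorem glue (H : SimpleGraph V) (R : V → V → Prop) (hR : ∀ x y, R x y → R y x)
    (W X W' : Finset V) (g f' : V → V) (hXW : X ⊆ W)
    (hW' : W' = (W \ X) \ X.image g)
    (g1 : ∀ x ∈ X, g x ∈ W \ X ∧ R x (g x))
    (g2 : ∀ x ∈ X, ∀ y ∈ X, g x = g y → x = y)
    (g3 : ∀ x ∈ X, ∀ y ∈ X, ¬ QQ H x (g x) y (g y))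
    (f1 : ∀ x, f' (f' x) = x)
    (f2 : ∀ x ∈ W', f' x ∈ W' ∧ R x (f' x))
    (f3 : ∀ x ∈ W', ∀ y ∈ W', ¬ QQ H x (f' x) y (f' y))
    (hcross : ∀ x ∈ X, ∀ y ∈ W', ¬ QQ H x (g x) y (f' y)) :
    ∃ f : V → V, (∀ x ∈ W, f (f x) = x) ∧ (∀ x ∈ W, f x ∈ W ∧ R x (f x)) ∧
      (∀ x ∈ W, ∀ y ∈ W, ¬ QQ H x (f x) y (f y)) := by
  classical
  -- the inverse of `g`
  have hinv : ∀ z, ∃ x, z ∈ X.image g → x ∈ X ∧ g x = z := by
    intro z
    by_cases hz : z ∈ X.image g
    · obtain ⟨x, hx, hxz⟩ := mem_image.1 hz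
      exact ⟨x, fun _ => ⟨hx, hxz⟩⟩
    · exact ⟨z, fun h => absurd h hz⟩
  choose h hh using hinv
  set f : V → V := fun x => if x ∈ X then g x else if x ∈ X.image g then h x else f' x with hf
  have fX : ∀ x ∈ X, f x = g x := fun x hx => by simp only [hf, hx, if_true]
  have hgX : ∀ x ∈ X, g x ∉ X := fun x hx => (mem_sdiff.1 (g1 x hx).1).2
  have hgW : ∀ x ∈ X, g x ∈ W := fun x hx => (mem_sdiff.1 (g1 x hx).1).1
  have fG : ∀ x ∈ X, f (g x) = x := by
    intro x hx
    have him : g x ∈ X.image g := mem_image_of_mem _ hx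
    simp only [hf, hgX x hx, if_false, him, if_true]
    exact g2 _ (hh _ him).1 _ hx (hh _ him).2
  have fW' : ∀ x ∈ W', f x = f' x := by
    intro x hx
    rw [hW', mem_sdiff, mem_sdiff] at hx
    simp only [hf, hx.1.2, if_false, hx.2]
  -- the three kinds of elements
  have kinds : ∀ x ∈ W, x ∈ X ∨ (∃ y ∈ X, g y = x) ∨ x ∈ W' := by
    intro x hx
    by_cases h1 : x ∈ X
    · exact Or.inl h1
    · by_cases h2 : x ∈ X.image g
      · obtain ⟨y, hy, hyx⟩ := mem_image.1 h2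
        exact Or.inr (Or.inl ⟨y, hy, hyx⟩)
      · refine Or.inr (Or.inr ?_)
        rw [hW', mem_sdiff, mem_sdiff]
        exact ⟨⟨hx, h1⟩, h2⟩
  have hW'W : ∀ x ∈ W', x ∈ W := by
    intro x hx
    rw [hW', mem_sdiff, mem_sdiff] at hx
    exact hx.1.1
  refine ⟨f, ?_, ?_, ?_⟩
  · intro x hx
    rcases kinds x hx with h1 | ⟨y, hy, rfl⟩ | h1
    · rw [fX x h1, fG x h1]
    · rw [fG y hy, fX y hy]
    · rw [fW' x h1, fW' _ (f2 x h1).1, f1]
  · intro x hx
    rcases kinds x hx with h1 | ⟨y, hy, rfl⟩ | h1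
    · rw [fX x h1]; exact ⟨hgW x h1, (g1 x h1).2⟩
    · rw [fG y hy]; exact ⟨hXW hy, hR _ _ (g1 y hy).2⟩
    · rw [fW' x h1]; exact ⟨hW'W _ (f2 x h1).1, (f2 x h1).2⟩
  · -- conflicts
    have main : ∀ x ∈ W, ∃ u u', ((u ∈ X ∧ u' = g u) ∨ (u ∈ W' ∧ u' = f' u)) ∧
        ((x = u ∧ f x = u') ∨ (x = u' ∧ f x = u)) := by
      intro x hx
      rcases kinds x hx with h1 | ⟨y, hy, rfl⟩ | h1
      · exact ⟨x, g x, Or.inl ⟨h1, rfl⟩, Or.inl ⟨rfl, fX x h1⟩⟩
      · exact ⟨y, g y, Or.inl ⟨hy, rfl⟩, Or.inr ⟨rfl, fG y hy⟩⟩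
      · exact ⟨x, f' x, Or.inr ⟨h1, rfl⟩, Or.inl ⟨rfl, fW' x h1⟩⟩
    intro x hx y hy hq
    obtain ⟨u, u', hu, hxu⟩ := main x hx
    obtain ⟨v, v', hv, hyv⟩ := main y hy
    have hq1 : QQ H u u' v v' := by
      have e1 : QQ H u u' y (f y) := by
        rcases hxu with ⟨a, b⟩ | ⟨a, b⟩
        · rw [← a, ← b]; exact hq
        · rw [← a, ← b]; exact hq.swap
      rcases hyv with ⟨a, b⟩ | ⟨a, b⟩
      · rw [← a, ← b]; exact e1
      · rw [← a, ← b]; exact e1.swap'
    rcases hu with ⟨hu, rfl⟩ | ⟨hu, rfl⟩ <;> rcases hv with ⟨hv, rfl⟩ | ⟨hv, rfl⟩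
    · exact g3 u hu v hv hq1
    · exact hcross u hu v hv hq1
    · exact hcross v hv u hu hq1.symm
    · exact f3 u hu v hv hq1

end Pool.Agent.H65.TW
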