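import Pool.Agent.H65.TW.Crit
import Pool.Graph.R_seed8.TH446.HN.Sharp2

/-! From the finite set version to the statement with sets; consequences. -/

set_option autoImplicit false
set_option linter.unusedSectionVars false

namespace Pool.Agent.H65.TW

open Finset

/-- the non-neighbours of `x` -/
def NonNbr {V : Type} (G : SimpleGraph V) (x : V) : Set V := {y | x ≠ y ∧ ¬ G.Adj x y}

/-- the walks of length two from `x` in the complement -/
def Walks {V : Type} (G : SimpleGraph V) (x : V) : Set (V × V) :=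
  {p | p.1 ∈ NonNbr G x ∧ p.2 ∈ NonNbr G p.1}

/-- few vertices have many common non-neighbours with a given vertex -/
def FewCommon {V : Type} (G : SimpleGraph V) (m : ℕ) : Prop :=
  ∀ x, 10 ^ 7 * {y | x ≠ y ∧ m < 10 ^ 7 * (NonNbr G x ∩ NonNbr G y).ncard ^ 2}.ncard ≤ m

open Classical in
theorem cd_eq {V : Type} [Fintype V] (G : SimpleGraph V) (x y : V) :
    cd Gᶜ univ x y = (NonNbr G x ∩ NonNbr G y).ncard := by
  unfold cd
  rw [Set.ncard_eq_toFinset_card']
  congr 1
  ext z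
  simp only [mem_filter, mem_univ, true_and, Set.mem_toFinset, Set.mem_inter_iff, NonNbr,
    Set.mem_ofPred_eq, SimpleGraph.compl_adj]

open Classical in
theorem dg_eq {V : Type} [Fintype V] (G : SimpleGraph V) (x : V) :
    dg Gᶜ univ x = (NonNbr G x).ncard := by
  unfold dg
  rw [Set.ncard_eq_toFinset_card']
  congr 1
  ext z
  simp only [mem_filter, mem_univ, true_and, Set.mem_toFinset, NonNbr,
    Set.mem_ofPred_eq, SimpleGraph.compl_adj]

open Classical in
theorem cond_iff {V : Type} [Fintype V] (G : SimpleGraph V) (m : ℕ) :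
    Cond G m ↔ FewCommon G m := by
  unfold Cond FewCommon
  refine forall_congr' (fun x => ?_)
  have : (univ.filter (fun y => x ≠ y ∧ m < 10 ^ 7 * cd Gᶜ univ x y ^ 2)).card =
      {y | x ≠ y ∧ m < 10 ^ 7 * (NonNbr G x ∩ NonNbr G y).ncard ^ 2}.ncard := by
    rw [Set.ncard_eq_toFinset_card']
    congr 1
    ext z
    simp only [mem_filter, mem_univ, true_and, Set.mem_toFinset, Set.mem_ofPred_eq, cd_eq]
  rw [this]

/-- a sum of numbers of common non-neighbours is at most the number of walks -/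
theorem walks_ge {V : Type} [Finite V] (G : SimpleGraph V) (x : V) (κ : ℕ) (A : Set V)
    (hA : ∀ y ∈ A, κ ≤ (NonNbr G x ∩ NonNbr G y).ncard) :
    κ * A.ncard ≤ (Walks G x).ncard := by
  classical
  have : Fintype V := Fintype.ofFinite V
  have h1 : (A.toFinset.biUnion (fun y =>
      (NonNbr G x ∩ NonNbr G y).toFinset.image (fun z => (z, y)))).card ≤
      (Walks G x).toFinset.card := by
    refine card_le_card ?_
    intro p hp
    simp only [mem_biUnion, mem_image, Set.mem_toFinset, Set.mem_inter_iff] at hp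
    obtain ⟨y, hy, z, ⟨hz1, hz2⟩, rfl⟩ := hp
    rw [Set.mem_toFinset]
    exact ⟨hz1, ⟨hz2.1.symm, fun h => hz2.2 h.symm⟩⟩
  rw [card_biUnion] at h1
  · rw [Set.ncard_eq_toFinset_card' A, Set.ncard_eq_toFinset_card' (Walks G x)]
    refine le_trans ?_ h1
    rw [mul_comm, ← smul_eq_mul, ← sum_const]
    refine sum_le_sum (fun y hy => ?_)
    rw [card_image_of_injective _ (fun a b h => (Prod.mk.inj h).1),
      ← Set.ncard_eq_toFinset_card']
    exact hA y (Set.mem_toFinset.1 hy)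
  · intro a _ b _ hab
    rw [Function.onFun, Finset.disjoint_left]
    intro p hp hp'
    obtain ⟨z, _, rfl⟩ := mem_image.1 hp
    obtain ⟨z', _, h⟩ := mem_image.1 hp'
    exact hab (Prod.mk.inj h).2.symm

/-- if `FewCommon` fails then there are many walks -/
theorem walks_of_not {V : Type} [Finite V] (G : SimpleGraph V) (m : ℕ) (h : ¬ FewCommon G m) :
    ∃ x, m ^ 3 < 10 ^ 21 * (Walks G x).ncard ^ 2 := by
  unfold FewCommon at h
  push Not at h
  obtain ⟨x, hx⟩ := h
  refine ⟨x, ?_⟩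
  set A := {y | x ≠ y ∧ m < 10 ^ 7 * (NonNbr G x ∩ NonNbr G y).ncard ^ 2} with hA
  have hne : A.Nonempty := by
    rw [← Set.ncard_pos (Set.toFinite _)]
    by_contra hcon
    have : A.ncard = 0 := by omega
    rw [this] at hx
    omega
  obtain ⟨y, hy, hmin⟩ := Set.exists_min_image A (fun y => (NonNbr G x ∩ NonNbr G y).ncard)
    (Set.toFinite _) hne
  have h1 := walks_ge G x _ A hmin
  have h2 := hy.2
  have h3 : (10 ^ 7 * A.ncard) ^ 2 > m ^ 2 := Nat.pow_lt_pow_left hx (by norm_num)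
  calc m ^ 3 = m ^ 2 * m := by ring
    _ < (10 ^ 7 * A.ncard) ^ 2 * (10 ^ 7 * (NonNbr G x ∩ NonNbr G y).ncard ^ 2) :=
        Nat.mul_lt_mul'' h3 h2
    _ = 10 ^ 21 * ((NonNbr G x ∩ NonNbr G y).ncard * A.ncard) ^ 2 := by ring
    _ ≤ _ := Nat.mul_le_mul_left _ (Nat.pow_le_pow_left h1 2)

theorem nonNbr_induce {V : Type} (G : SimpleGraph V) (U : Set V) (x : U) :
    Subtype.val '' NonNbr (G.induce U) x ⊆ NonNbr G x.1 := by
  rintro _ ⟨y, hy, rfl⟩
  exact ⟨fun h => hy.1 (Subtype.ext h), fun h => hy.2 (by simpa using h)⟩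

theorem common_induce {V : Type} [Finite V] (G : SimpleGraph V) (U : Set V) (x y : U) :
    (NonNbr (G.induce U) x ∩ NonNbr (G.induce U) y).ncard ≤
      (NonNbr G x.1 ∩ NonNbr G y.1).ncard := by
  rw [← Set.ncard_image_of_injective _ (Subtype.val_injective (p := fun x => x ∈ U))]
  refine Set.ncard_le_ncard ?_ (Set.toFinite _)
  rintro _ ⟨z, hz, rfl⟩
  exact ⟨nonNbr_induce G U x ⟨z, hz.1, rfl⟩, nonNbr_induce G U y ⟨z, hz.2, rfl⟩⟩

theorem walks_induce {V : Type} [Finite V] (G : SimpleGraph V) (U : Set V) (x : U) :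
    (Walks (G.induce U) x).ncard ≤ (Walks G x.1).ncard := by
  rw [← Set.ncard_image_of_injective _
    (Function.Injective.prodMap (Subtype.val_injective (p := fun x => x ∈ U))
      (Subtype.val_injective (p := fun x => x ∈ U)))]
  refine Set.ncard_le_ncard ?_ (Set.toFinite _)
  rintro _ ⟨⟨y, z⟩, hz, rfl⟩
  exact ⟨nonNbr_induce G U x ⟨y, hz.1, rfl⟩, nonNbr_induce G U y ⟨z, hz.2, rfl⟩⟩

/-- the product condition bounds the number of walks -/
theorem walks_le_prod {V : Type} [Finite V] (G : SimpleGraph V) (P : ℕ)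
    (h : ∀ x y, x ≠ y → ¬ G.Adj x y → (NonNbr G x).ncard * (NonNbr G y).ncard ≤ P) (x : V) :
    (Walks G x).ncard ≤ P := by
  classical
  have : Fintype V := Fintype.ofFinite V
  rcases (NonNbr G x).eq_empty_or_nonempty with h0 | h0
  · have : Walks G x = ∅ := by
      ext p
      simp only [Walks, h0, Set.mem_ofPred_eq, Set.mem_empty_iff_false, false_and]
    rw [this, Set.ncard_empty]
    exact Nat.zero_le _
  · obtain ⟨y, hy, hmax⟩ := Set.exists_max_image (NonNbr G x) (fun y => (NonNbr G y).ncard)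
      (Set.toFinite _) h0
    refine le_trans ?_ (h x y hy.1 hy.2)
    have h1 : (Walks G x).toFinset ⊆ (NonNbr G x).toFinset.biUnion (fun y =>
        (NonNbr G y).toFinset.image (fun z => (y, z))) := by
      rintro ⟨u, v⟩ hp
      rw [Set.mem_toFinset] at hp
      simp only [mem_biUnion, mem_image, Set.mem_toFinset]
      exact ⟨u, hp.1, v, hp.2, rfl⟩
    rw [Set.ncard_eq_toFinset_card' (Walks G x)]
    refine (card_le_card h1).trans (card_biUnion_le.trans ?_)
    rw [Set.ncard_eq_toFinset_card' (NonNbr G x), ← smul_eq_mul, ← sum_const]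
    refine sum_le_sum (fun u hu => ?_)
    refine card_image_le.trans ?_
    rw [← Set.ncard_eq_toFinset_card']
    exact hmax u (Set.mem_toFinset.1 hu)

/-- the local form -/
theorem local_form {V : Type} [Fintype V] (G : SimpleGraph V) (e : ℕ) (he : e ≤ 1)
    (h : ¬ Pool.Agent.TH446.HN.Crit.Had G e) :
    ∃ (U : Set V), ¬ Pool.Agent.TH446.HN.Crit.Had (G.induce U) e ∧
      ¬ FewCommon (G.induce U) U.ncard := by
  obtain ⟨U, h1, inst, h2⟩ := localize G e he h
  refine ⟨U, h1, ?_⟩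
  rw [cond_iff] at h2
  have : Fintype.card U = U.ncard := by
    rw [← Nat.card_eq_fintype_card, Nat.card_coe_set_eq]
  rwa [this] at h2

/-- graphs without a `K_{⌈n/2⌉}` minor in which the numbers of common non-neighbours are of
order `√(n log n)` for most pairs -/
theorem sharp (n : ℕ) (hn : 3 ≤ n) : ∃ G : SimpleGraph (Fin n),
    (∀ x, ((NonNbr G x).ncard : ℝ) ≤ 31 * (n : ℝ) ^ ((3 : ℝ) / 4) * Real.log n ^ ((1 : ℝ) / 4)) ∧
    (∀ (c : ℝ), 0 < c → ∀ x, ({y | x ≠ y ∧ 961 * c * Real.sqrt (n * Real.log n) <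
      ((NonNbr G x ∩ NonNbr G y).ncard : ℝ)}.ncard : ℝ) ≤ n / c) ∧
    ¬ H331HC.KMinor G ((n + 1) / 2) := by
  obtain ⟨G, hG, hmin⟩ := Pool.Agent.TH446.HN.Sharp.sharp n hn
  refine ⟨G, hG, ?_, hmin⟩
  intro c hc x
  have hn0 : (0 : ℝ) < n := by exact_mod_cast (show 0 < n by omega)
  have hn1 : (1 : ℝ) < n := by exact_mod_cast (show 1 < n by omega)
  have hL : 0 < Real.log n := Real.log_pos hn1
  set T : ℝ := 961 * c * Real.sqrt (n * Real.log n) with hT
  have hTpos : 0 < T := by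
    have : 0 < Real.sqrt (n * Real.log n) := Real.sqrt_pos.2 (by positivity)
    positivity
  set A := {y | x ≠ y ∧ T < ((NonNbr G x ∩ NonNbr G y).ncard : ℝ)} with hA
  rcases A.eq_empty_or_nonempty with h0 | h0
  · rw [h0, Set.ncard_empty]
    simp only [Nat.cast_zero]
    positivity
  obtain ⟨y, hy, hymin⟩ := Set.exists_min_image A (fun y => (NonNbr G x ∩ NonNbr G y).ncard)
    (Set.toFinite _) h0
  have h1 := walks_ge G x _ A hymin
  -- the largest number of non-neighbours
  obtain ⟨z, _, hz⟩ := Set.exists_max_image (Set.univ : Set (Fin n))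
    (fun z => (NonNbr G z).ncard) (Set.toFinite _) ⟨x, trivial⟩
  have h2 : (Walks G x).ncard ≤ (NonNbr G z).ncard * (NonNbr G z).ncard :=
    walks_le_prod G _ (fun u v _ _ => Nat.mul_le_mul (hz u trivial) (hz v trivial)) x
  set D : ℝ := 31 * (n : ℝ) ^ ((3 : ℝ) / 4) * Real.log n ^ ((1 : ℝ) / 4) with hD
  have h3 : ((NonNbr G z).ncard : ℝ) ≤ D := hG z
  have h4 : ((NonNbr G x ∩ NonNbr G y).ncard : ℝ) * A.ncard ≤ D * D := by
    calc ((NonNbr G x ∩ NonNbr G y).ncard : ℝ) * A.ncard ≤ (Walks G x).ncard := by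
          exact_mod_cast h1
      _ ≤ ((NonNbr G z).ncard : ℝ) * (NonNbr G z).ncard := by exact_mod_cast h2
      _ ≤ D * D := mul_le_mul h3 h3 (by positivity) ((Nat.cast_nonneg _).trans h3)
  have h5 : D * D = 961 * (n * Real.sqrt (n * Real.log n)) := by
    have e1 : Real.sqrt (n * Real.log n) =
        (n : ℝ) ^ ((1 : ℝ) / 2) * Real.log n ^ ((1 : ℝ) / 2) := by
      rw [Real.sqrt_eq_rpow, Real.mul_rpow hn0.le hL.le]
    have e2 : (n : ℝ) ^ ((3 : ℝ) / 4) * (n : ℝ) ^ ((3 : ℝ) / 4) = n * (n : ℝ) ^ ((1 : ℝ) / 2) := by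
      rw [← Real.rpow_add hn0]
      nth_rewrite 2 [← Real.rpow_one (n : ℝ)]
      rw [← Real.rpow_add hn0]
      norm_num
    have e3 : Real.log n ^ ((1 : ℝ) / 4) * Real.log n ^ ((1 : ℝ) / 4) =
        Real.log n ^ ((1 : ℝ) / 2) := by
      rw [← Real.rpow_add hL]
      norm_num
    calc D * D = 961 * (((n : ℝ) ^ ((3 : ℝ) / 4) * (n : ℝ) ^ ((3 : ℝ) / 4)) *
          (Real.log n ^ ((1 : ℝ) / 4) * Real.log n ^ ((1 : ℝ) / 4))) := by rw [hD]; ring
      _ = _ := by rw [e2, e3, e1]; ring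
  have h6 : T * A.ncard ≤ T * (n / c) := by
    calc T * A.ncard ≤ ((NonNbr G x ∩ NonNbr G y).ncard : ℝ) * A.ncard :=
          mul_le_mul_of_nonneg_right hy.2.le (by positivity)
      _ ≤ D * D := h4
      _ = T * (n / c) := by
          rw [h5, hT]
          field_simp
  exact le_of_mul_le_mul_left h6 hTpos

end Pool.Agent.H65.TW
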