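import Pool.Agent.H65.TW.Half
import Pool.Graph.R_seed8.TH446.HN.Crit2

/-! Vertex-critical graphs and smallest counterexamples when every vertex starts few walks of
length two in the complement. -/

set_option autoImplicit false
set_option linter.unusedSectionVars false

namespace Pool.Agent.H65.TW

open Finset Pool.Agent.W212.EFF TH481.DM

theorem adj_of_reachable {V : Type} (H : SimpleGraph V) {x y : V} (h : H.Reachable x y)
    (hne : x ≠ y) : ∃ w, H.Adj x w := by
  obtain ⟨p⟩ := h
  cases p with
  | nil => exact absurd rfl hne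
  | cons h _ => exact ⟨_, h⟩

open Classical in
/-- Representatives of the components of the complement of a vertex-critical graph which minimize
a given function. -/
theorem reps {V : Type} [Fintype V] (G H : SimpleGraph V)
    (hHadj : ∀ u v, H.Adj u v ↔ u ≠ v ∧ ¬ G.Adj u v)
    (hcrit : ∀ v, Y (Ind G) ((univ : Finset V).erase v) < Y (Ind G) (univ : Finset V))
    (φ : V → ℕ) :
    ∃ S : Finset V, (∀ u ∈ S, ∀ v ∈ S, H.Reachable u v → u = v) ∧
      (∀ u ∈ S, ∀ v, H.Reachable u v → φ u ≤ φ v) ∧ (∀ v, v ∉ S → ∃ w, H.Adj v w) ∧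
      2 * Y (Ind G) (univ : Finset V) ≤ 2 * S.card + (Sᶜ : Finset V).card := by
  have hsurj : ∀ C : H.ConnectedComponent, ∃ v, H.connectedComponentMk v = C ∧
      ∀ u, H.connectedComponentMk u = C → φ v ≤ φ u := by
    intro C
    induction C using SimpleGraph.ConnectedComponent.ind with
    | _ v =>
      obtain ⟨u, hu, hmin⟩ := exists_min_image
        (univ.filter (fun u => H.connectedComponentMk u = H.connectedComponentMk v)) φ
        ⟨v, by simp⟩
      exact ⟨u, (mem_filter.1 hu).2, fun u' hu' => hmin u' (mem_filter.2 ⟨mem_univ _, hu'⟩)⟩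
  choose rep hrepq hrepm using hsurj
  have hrepinj : Function.Injective rep := by
    intro C C' h
    rw [← hrepq C, ← hrepq C', h]
  set S : Finset V := univ.image rep with hS
  have hScard : S.card = Fintype.card H.ConnectedComponent := by
    rw [hS, Finset.card_image_of_injective _ hrepinj, Finset.card_univ]
  have hcompmem : ∀ C v, v ∈ comp H (rep C) ↔ H.connectedComponentMk v = C := by
    intro C v
    simp only [comp, mem_filter, mem_univ, true_and]
    rw [← SimpleGraph.ConnectedComponent.eq, hrepq]
    exact eq_comm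
  have hsum : Fintype.card V = ∑ C : H.ConnectedComponent, (comp H (rep C)).card := by
    rw [← Finset.card_univ, Finset.card_eq_sum_card_fiberwise (s := (univ : Finset V))
      (f := fun v => H.connectedComponentMk v) (t := (univ : Finset H.ConnectedComponent))
      (by intro x _; simp)]
    refine Finset.sum_congr rfl (fun C _ => ?_)
    congr 1
    ext v
    rw [mem_filter, hcompmem]
    simp
  have hY : 2 * Y (Ind G) (univ : Finset V) ≤
      Fintype.card V + Fintype.card H.ConnectedComponent := by
    have hun : (univ : Finset V) = (univ : Finset H.ConnectedComponent).biUnion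
        (fun C => comp H (rep C)) := by
      ext v
      simp only [mem_univ, mem_biUnion, true_and, true_iff]
      exact ⟨H.connectedComponentMk v, (hcompmem _ v).2 rfl⟩
    have h3 : Y (Ind G) (univ : Finset V) ≤ ∑ C : H.ConnectedComponent,
        Y (Ind G) (comp H (rep C)) := by
      conv_lhs => rw [hun]
      exact Y_biUnion_le (ind_cpx G) _ _
    calc 2 * Y (Ind G) (univ : Finset V) ≤ 2 * ∑ C : H.ConnectedComponent,
          Y (Ind G) (comp H (rep C)) := Nat.mul_le_mul_left _ h3
      _ = ∑ C : H.ConnectedComponent, 2 * Y (Ind G) (comp H (rep C)) := by rw [Finset.mul_sum]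
      _ ≤ ∑ C : H.ConnectedComponent, ((comp H (rep C)).card + 1) :=
          Finset.sum_le_sum (fun C _ => comp_gallai G H hHadj hcrit (rep C))
      _ = Fintype.card V + Fintype.card H.ConnectedComponent := by
          rw [Finset.sum_add_distrib, ← hsum]; simp
  refine ⟨S, ?_, ?_, ?_, ?_⟩
  · intro u hu v hv huv
    obtain ⟨C, _, rfl⟩ := mem_image.1 hu
    obtain ⟨C', _, rfl⟩ := mem_image.1 hv
    have := SimpleGraph.ConnectedComponent.eq.2 huv
    rw [hrepq, hrepq] at this
    rw [this]
  · intro u hu v huv
    obtain ⟨C, _, rfl⟩ := mem_image.1 hu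
    refine hrepm C v ?_
    rw [← hrepq C]
    exact (SimpleGraph.ConnectedComponent.eq.2 huv).symm
  · intro v hv
    have h1 : H.Reachable v (rep (H.connectedComponentMk v)) :=
      SimpleGraph.ConnectedComponent.eq.1 (hrepq _).symm
    have h2 : v ≠ rep (H.connectedComponentMk v) := by
      intro h
      apply hv
      rw [h]
      exact mem_image_of_mem _ (mem_univ _)
    exact adj_of_reachable H h1 h2
  · have h1 : S.card + (Sᶜ : Finset V).card = Fintype.card V := Finset.card_add_card_compl S
    omega

open Classical in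
/-- In a vertex-critical graph the degrees are at least the chromatic number minus one. -/
theorem crit_degree {V : Type} [Fintype V] (G : SimpleGraph V)
    (hcrit : ∀ v, Y (Ind G) ((univ : Finset V).erase v) < Y (Ind G) (univ : Finset V)) (v : V) :
    Y (Ind G) (univ : Finset V) ≤ (univ.filter (fun y => G.Adj v y)).card + 1 := by
  by_contra hcon
  push Not at hcon
  set k := Y (Ind G) (univ : Finset V) - 1 with hk
  have h1 : Cov (Ind G) k ((univ : Finset V).erase v) :=
    (Y_spec (ind_cpx G) _).le (ind_cpx G) (by have := hcrit v; omega)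
  rw [cov_iff] at h1
  obtain ⟨c, c1, c2⟩ := h1
  -- a colour not used on the neighbours
  have h2 : ((univ.filter (fun y => G.Adj v y)).image c).card < (range k).card := by
    rw [card_range]
    refine lt_of_le_of_lt card_image_le ?_
    omega
  obtain ⟨j, hj, hjn⟩ := exists_mem_notMem_of_card_lt_card h2
  rw [mem_range] at hj
  have hj' : ∀ y, G.Adj v y → c y ≠ j := by
    intro y hy h
    exact hjn (mem_image.2 ⟨y, mem_filter.2 ⟨mem_univ _, hy⟩, h⟩)
  have h3 : Cov (Ind G) k (univ : Finset V) := by
    rw [cov_iff]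
    refine ⟨Function.update c v j, ?_, ?_⟩
    · intro u _
      by_cases hu : u = v
      · rw [hu, Function.update_self]; exact hj
      · rw [Function.update_of_ne hu]
        exact c1 u (mem_erase.2 ⟨hu, mem_univ _⟩)
    · intro u _ w _ huw
      by_cases hu : u = v
      · have hw : w ≠ v := fun h => G.irrefl (hu ▸ h ▸ huw)
        rw [hu, Function.update_self, Function.update_of_ne hw]
        exact (hj' w (hu ▸ huw)).symm
      · by_cases hw : w = v
        · rw [hw, Function.update_self, Function.update_of_ne hu]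
          exact hj' u (hw ▸ huw.symm)
        · rw [Function.update_of_ne hu, Function.update_of_ne hw]
          exact c2 u (mem_erase.2 ⟨hu, mem_univ _⟩) w (mem_erase.2 ⟨hw, mem_univ _⟩) huw
  have h4 := Y_le h3
  omega

open Classical in
/-- A vertex-critical graph whose complement is a matching is complete. -/
theorem crit_matching {V : Type} [Fintype V] (G : SimpleGraph V)
    (hcrit : ∀ v, Y (Ind G) ((univ : Finset V).erase v) < Y (Ind G) (univ : Finset V))
    (h1 : ∀ x y z, Gᶜ.Adj x y → Gᶜ.Adj x z → y = z) (x y : V) : ¬ Gᶜ.Adj x y := by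
  intro hxy
  have hxy' := (SimpleGraph.compl_adj G x y).1 hxy
  set k := Y (Ind G) ((univ : Finset V).erase x) with hk
  have h2 : Cov (Ind G) k ((univ : Finset V).erase x) := Y_spec (ind_cpx G) _
  rw [cov_iff] at h2
  obtain ⟨c, c1, c2⟩ := h2
  have hy : y ∈ (univ : Finset V).erase x := mem_erase.2 ⟨hxy'.1.symm, mem_univ _⟩
  have hadj : ∀ u, G.Adj x u → c u ≠ c y := by
    intro u hu
    have e1 : u ≠ x := hu.ne'
    have e2 : u ≠ y := by rintro rfl; exact hxy'.2 hu
    have e3 : G.Adj u y := by
      by_contra hcon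
      have e4 : Gᶜ.Adj y u := (SimpleGraph.compl_adj G y u).2 ⟨e2.symm, fun h => hcon h.symm⟩
      exact e1 (h1 y u x e4 hxy.symm)
    exact c2 u (mem_erase.2 ⟨e1, mem_univ _⟩) y hy e3
  have h3 : Cov (Ind G) k (univ : Finset V) := by
    rw [cov_iff]
    refine ⟨Function.update c x (c y), ?_, ?_⟩
    · intro u _
      by_cases hu : u = x
      · rw [hu, Function.update_self]; exact c1 y hy
      · rw [Function.update_of_ne hu]
        exact c1 u (mem_erase.2 ⟨hu, mem_univ _⟩)
    · intro u _ w _ huw
      by_cases hu : u = x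
      · have hw : w ≠ x := fun h => G.irrefl (hu ▸ h ▸ huw)
        rw [hu, Function.update_self, Function.update_of_ne hw]
        exact (hadj w (hu ▸ huw)).symm
      · by_cases hw : w = x
        · rw [hw, Function.update_self, Function.update_of_ne hu]
          exact hadj u (hw ▸ huw.symm)
        · rw [Function.update_of_ne hu, Function.update_of_ne hw]
          exact c2 u (mem_erase.2 ⟨hu, mem_univ _⟩) w (mem_erase.2 ⟨hw, mem_univ _⟩) huw
  have h4 := Y_le h3
  have h5 := hcrit x
  omega

open Classical in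
/-- the pairs for a clique minor, with the representatives as single vertices -/
theorem pairs_and_reps {V : Type} [Fintype V] (G : SimpleGraph V) (S W : Finset V) (m : ℕ)
    (hC : Cond G m) (hm : 10 ^ 7 ≤ m) (hWS : Disjoint S W)
    (hS1 : ∀ u ∈ S, ∀ v ∈ S, Gᶜ.Reachable u v → u = v)
    (hsmall : ∀ s ∈ S, 100 * dg Gᶜ univ s ≤ m)
    (hwm : W.card ≤ m) (hmw : 10 * m ≤ 21 * W.card) (hW : Even W.card)
    (hG : ∀ x ∈ W, m < 100 * dg Gᶜ W x →
      W.card ≤ 22 * (W.filter (fun y => G.Adj x y)).card) (k : ℕ)
    (hk : 2 * k ≤ 2 * S.card + W.card) : H331HC.KMinor G k := by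
  obtain ⟨f, f1, f2, f3⟩ := pairing' G W m (m / 100)
    (fun x y => ∀ s ∈ S, ¬ (Gᶜ.Adj x s ∧ Gᶜ.Adj y s)) hC hm hwm hmw (Nat.mul_div_le _ _)
    (fun x y h s hs h' => h s hs ⟨h'.2, h'.1⟩)
    (by
      intro x _
      by_cases hx : ∃ s ∈ S, Gᶜ.Adj x s
      · obtain ⟨s0, hs0, hxs0⟩ := hx
        rw [Nat.le_div_iff_mul_le (by norm_num)]
        refine le_trans (Nat.mul_le_mul_right _
          (card_le_card (t := univ.filter (fun y => Gᶜ.Adj s0 y)) ?_)) ?_
        · intro y hy
          simp only [mem_filter] at hy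
          have hy2 := hy.2
          push Not at hy2
          obtain ⟨s, hs, hxs, hys⟩ := hy2
          have hss : s = s0 := by
            apply hS1 s hs s0 hs0
            exact hxs.symm.reachable.trans hxs0.reachable
          subst hss
          rw [mem_filter]
          exact ⟨mem_univ _, hys.symm⟩
        · have e2 := hsmall s0 hs0
          have e3 : (univ.filter (fun y => Gᶜ.Adj s0 y)).card = dg Gᶜ univ s0 := rfl
          omega
      · refine le_trans (le_of_eq (card_eq_zero.2 (eq_empty_of_forall_notMem ?_))) (Nat.zero_le _)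
        intro y hy
        simp only [mem_filter] at hy
        exact hy.2 (fun s hs h => hx ⟨s, hs, h.1⟩)) hG hW
  obtain ⟨j, hj⟩ := hW
  refine (Pool.Agent.W22.RGM0.M0 V G S W f hWS (fun x hx => (f2 x hx).1)
    (fun x hx => f1 x hx) (fun x hx => (f2 x hx).2.1) ?_ ?_ f3 (S.card + j)
    (by rw [hj]; ring)).mono (by omega)
  · intro s hs t ht hst
    by_contra hcon
    exact hst (hS1 s hs t ht ((SimpleGraph.compl_adj G s t).2 ⟨hst, hcon⟩).reachable)
  · intro x hx s hs
    exact (f2 x hx).2.2 s hs

open Classical in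
/-- Vertex-critical graphs; `N` is the set of vertices which have a non-neighbour. -/
theorem crit_big {V : Type} [Fintype V] (G : SimpleGraph V)
    (hcrit : ∀ v, Y (Ind G) ((univ : Finset V).erase v) < Y (Ind G) (univ : Finset V))
    (N : Finset V) (hN0 : N.Nonempty) (hN : ∀ v, v ∈ N ↔ ∃ w, Gᶜ.Adj v w)
    (hC : Cond G N.card) : H331HC.KMinor G (Y (Ind G) (univ : Finset V)) := by
  obtain ⟨S, hS1, hS2, hS3, hS4⟩ := reps G Gᶜ (fun u v => by rw [SimpleGraph.compl_adj]) hcrit
    (fun v => dg Gᶜ univ v)
  have hrl := Pool.Agent.TH446.HN.Crit.rest_large Gᶜ S hS1 N (fun v hv => (hN v).1 hv)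
  have hSN : (Sᶜ : Finset V).card ≤ N.card := by
    refine card_le_card ?_
    intro v hv
    exact (hN v).2 (hS3 v (mem_compl.1 hv))
  have hm : 10 ^ 7 ≤ N.card := by
    by_contra hcon
    obtain ⟨v, hv⟩ := hN0
    obtain ⟨w, hw⟩ := (hN v).1 hv
    exact crit_matching G hcrit (fun x y z => cond_small G N.card hC (not_le.1 hcon) x y z) v w hw
  -- degrees inside `N`
  have hdN : ∀ x, dg Gᶜ N x = dg Gᶜ univ x := by
    intro x
    unfold dg
    congr 1
    ext y
    simp only [mem_filter, mem_univ, true_and, and_iff_right_iff_imp]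
    intro h
    exact (hN y).2 ⟨x, h.symm⟩
  have hhigh : 999 * (N.filter (fun x => N.card < 100 * dg Gᶜ univ x)).card ≤ 2 * N.card := by
    apply high_le G N _ N.card hC hm le_rfl (filter_subset _ _)
    intro x hx
    have := (mem_filter.1 hx).2
    rw [hdN]
    omega
  have hsmall : ∀ s ∈ S, 100 * dg Gᶜ univ s ≤ N.card := by
    intro s hs
    by_contra hcon
    push Not at hcon
    have e1 : univ.filter (fun y => Gᶜ.Adj s y) ⊆
        N.filter (fun x => N.card < 100 * dg Gᶜ univ x) := by
      intro y hy
      rw [mem_filter] at hy ⊢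
      refine ⟨(hN y).2 ⟨s, hy.2.symm⟩, ?_⟩
      have := hS2 s hs y hy.2.reachable
      omega
    have e2 := card_le_card e1
    have e3 : (univ.filter (fun y => Gᶜ.Adj s y)).card = dg Gᶜ univ s := rfl
    omega
  obtain ⟨W, hWS, hWc⟩ := Finset.exists_subset_card_eq
    (s := (Sᶜ : Finset V)) (n := 2 * ((Sᶜ : Finset V).card / 2)) (by omega)
  have hd : Disjoint S W := by
    rw [Finset.disjoint_left]
    intro v hv hvW
    exact (mem_compl.1 (hWS hvW)) hv
  have hWN : W ⊆ N := fun v hv => (hN v).2 (hS3 v (mem_compl.1 (hWS hv)))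
  by_cases hcase : ∀ x ∈ W, N.card < 100 * dg Gᶜ W x →
      W.card ≤ 22 * (W.filter (fun y => G.Adj x y)).card
  · -- all vertices of large degree in the complement have many neighbours
    exact pairs_and_reps G S W N.card hC hm hd hS1 hsmall (by omega) (by omega)
      (by rw [hWc]; exact even_two_mul _) hcase _ (by omega)
  · push Not at hcase
    obtain ⟨x, hxW, _, hx2⟩ := hcase
    -- the chromatic number is small
    have hY : Y (Ind G) (univ : Finset V) ≤ S.card +
        (W.filter (fun y => G.Adj x y)).card + 2 := by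
      refine (crit_degree G hcrit x).trans ?_
      have g1 : univ.filter (fun y => G.Adj x y) ⊆
          (S ∪ W.filter (fun y => G.Adj x y)) ∪ (Sᶜ \ W) := by
        intro y hy
        rw [mem_filter] at hy
        simp only [mem_union, mem_filter, mem_sdiff, mem_compl]
        by_cases a1 : y ∈ S
        · exact Or.inl (Or.inl a1)
        · by_cases a2 : y ∈ W
          · exact Or.inl (Or.inr ⟨a2, hy.2⟩)
          · exact Or.inr ⟨a1, a2⟩
      have g2 := card_le_card g1
      have g3 := card_union_le (S ∪ W.filter (fun y => G.Adj x y)) (Sᶜ \ W)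
      have g4 := card_union_le S (W.filter (fun y => G.Adj x y))
      have g5 : (Sᶜ \ W).card = (Sᶜ : Finset V).card - W.card := card_sdiff_of_subset hWS
      omega
    -- drop the vertices of large degree
    set X := W.filter (fun x => N.card < 100 * dg Gᶜ univ x) with hX
    have hX1 : X.card ≤ (N.filter (fun x => N.card < 100 * dg Gᶜ univ x)).card :=
      card_le_card (filter_subset_filter _ hWN)
    have hXW : X ⊆ W := filter_subset _ _
    have hcX : (W \ X).card = W.card - X.card := card_sdiff_of_subset hXW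
    obtain ⟨W₂, hW₂, hW₂c⟩ := Finset.exists_subset_card_eq
      (s := W \ X) (n := 2 * ((W \ X).card / 2)) (by omega)
    have hW₂W : W₂ ⊆ W := hW₂.trans sdiff_subset
    refine pairs_and_reps G S W₂ N.card hC hm (disjoint_of_subset_right hW₂W hd) hS1 hsmall
      (by omega) (by omega) (by rw [hW₂c]; exact even_two_mul _) ?_ _ (by omega)
    intro y hy hy2
    exfalso
    have e1 : y ∉ X := (mem_sdiff.1 (hW₂ hy)).2
    have e2 : 100 * dg Gᶜ univ y ≤ N.card := by
      by_contra hcon
      exact e1 (mem_filter.2 ⟨hW₂W hy, not_le.1 hcon⟩)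
    have e3 : dg Gᶜ W₂ y ≤ dg Gᶜ univ y := dg_mono Gᶜ (subset_univ _) y
    omega

open Classical in
/-- Vertex-critical graphs, with the number of non-universal vertices. -/
theorem crit {V : Type} [Fintype V] (G : SimpleGraph V)
    (hC : Cond G (Pool.Agent.W292.RG.nondom G).ncard) (k : ℕ)
    (hcol : ∀ v, (G.induce {v}ᶜ).Colorable k) (hk : ¬ G.Colorable k) :
    H331HC.KMinor G (k + 1) := by
  set N := (Pool.Agent.W292.RG.nondom G).toFinset with hNdef
  have hNc : (Pool.Agent.W292.RG.nondom G).ncard = N.card := Set.ncard_eq_toFinset_card' _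
  rw [hNc] at hC
  have hN : ∀ v, v ∈ N ↔ ∃ w, Gᶜ.Adj v w := by
    intro v
    rw [hNdef, Set.mem_toFinset]
    constructor
    · rintro ⟨w, hw⟩
      exact ⟨w, (SimpleGraph.compl_adj G v w).2 hw⟩
    · rintro ⟨w, hw⟩
      exact ⟨w, (SimpleGraph.compl_adj G v w).1 hw⟩
  rcases N.eq_empty_or_nonempty with h0 | h0
  · refine Pool.Agent.TH446.HN.Crit.crit34 G 0 ?_ (by simp) k hcol hk
    intro x
    unfold Pool.Agent.W292.RG.ndeg
    rw [Nat.le_zero, Set.ncard_eq_zero (Set.toFinite _)]
    ext y
    simp only [Set.mem_ofPred_eq, Set.mem_empty_iff_false, iff_false]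
    intro hxy
    have : x ∈ N := (hN x).2 ⟨y, hxy⟩
    rw [h0] at this
    exact absurd this (notMem_empty _)
  · have hk' := lt_Y_univ G k hk
    have hY : ∀ v, Y (Ind G) ((univ : Finset V).erase v) ≤ k := by
      intro v
      apply Y_le
      rw [cov_iff, ← colorable_induce_iff]
      have : (((univ : Finset V).erase v : Finset V) : Set V) = {v}ᶜ := by
        ext w; simp
      rw [this]
      exact hcol v
    exact (crit_big G (fun v => lt_of_le_of_lt (hY v) hk') N h0 hN hC).mono hk'

open Classical in
/-- Smallest counterexamples. -/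
theorem min_bad {V : Type} [Fintype V] (G : SimpleGraph V) (e k : ℕ) (he : e ≤ 1)
    (h1 : ¬ G.Colorable k) (h2 : ¬ HasCliqueMinor G (k + e))
    (hmin : ∀ U : Set V, U ≠ Set.univ → ∀ j, ¬ (G.induce U).Colorable j →
      HasCliqueMinor (G.induce U) (j + e)) : ¬ Cond G (Fintype.card V) := by
  intro hC
  have hnbr := exists_nonnbr G Gᶜ (fun u v => by rw [SimpleGraph.compl_adj]) e k he h1 h2 hmin
  have hcrit := crit_of_min G e k he h1 h2 hmin
  obtain ⟨a⟩ : Nonempty V := by
    by_contra hne
    rw [not_nonempty_iff] at hne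
    exact h1 ⟨SimpleGraph.Coloring.mk (fun v => (hne.false v).elim)
      (fun {v} => (hne.false v).elim)⟩
  have := crit_big G hcrit univ ⟨a, mem_univ _⟩ (fun v => ⟨fun _ => hnbr v, fun _ => mem_univ _⟩)
    (by rw [card_univ]; exact hC)
  exact h2 (minor_mono G _ _ this (by have := lt_Y_univ G k h1; omega))

/-- every counterexample contains one in which `Cond` fails -/
theorem localize {V : Type} [Fintype V] (G : SimpleGraph V) (e : ℕ) (he : e ≤ 1)
    (h : ¬ Pool.Agent.TH446.HN.Crit.Had G e) :
    ∃ (U : Set V), ¬ Pool.Agent.TH446.HN.Crit.Had (G.induce U) e ∧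
      ∃ _ : Fintype U, ¬ Cond (G.induce U) (Fintype.card U) := by
  classical
  have key : ∀ n : ℕ, ∀ U : Set V, U.ncard = n → ¬ Pool.Agent.TH446.HN.Crit.Had (G.induce U) e →
      ∃ U' : Set V, ¬ Pool.Agent.TH446.HN.Crit.Had (G.induce U') e ∧
        ∃ _ : Fintype U', ¬ Cond (G.induce U') (Fintype.card U') := by
    intro n
    induction n using Nat.strong_induction_on with
    | _ n ih =>
      intro U hU hnot
      by_cases hex : ∃ X : Set U, X ≠ Set.univ ∧
          ¬ Pool.Agent.TH446.HN.Crit.Had ((G.induce U).induce X) e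
      · obtain ⟨X, hX, hXn⟩ := hex
        have hlt : (Subtype.val '' X : Set V).ncard < n := by
          rw [← hU]
          apply Set.ncard_lt_ncard _ (Set.toFinite _)
          rw [Set.ssubset_iff_subset_ne]
          refine ⟨?_, ?_⟩
          · rintro _ ⟨x, _, rfl⟩; exact x.2
          · intro heq
            apply hX
            ext x
            simp only [Set.mem_univ, iff_true]
            have : x.1 ∈ Subtype.val '' X := by rw [heq]; exact x.2
            obtain ⟨y, hy, hyx⟩ := this
            rwa [Subtype.ext hyx] at hy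
        refine ih _ hlt (Subtype.val '' X) rfl ?_
        intro hh
        exact hXn (Pool.Agent.TH446.HN.Crit.had_iso _ _
          (Pool.Agent.TH446.HN.Crit.indIso G U X) e hh)
      · push Not at hex
        refine ⟨U, hnot, Fintype.ofFinite U, ?_⟩
        unfold Pool.Agent.TH446.HN.Crit.Had at hnot
        push Not at hnot
        obtain ⟨k, h1, h2⟩ := hnot
        let _ : Fintype U := Fintype.ofFinite U
        exact min_bad (G.induce U) e k he h1 h2 (fun X hX j hj => hex X hX j hj)
  refine key _ Set.univ rfl ?_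
  intro hh
  exact h (Pool.Agent.TH446.HN.Crit.had_iso _ _ (SimpleGraph.induceUnivIso G) e hh)

end Pool.Agent.H65.TW
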