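import Pool.Agent.H65.TW.Pairing

/-! `K_{⌈n/2⌉}` minors in graphs in which most pairs of vertices have few common non-neighbours. -/

set_option autoImplicit false
set_option linter.unusedSectionVars false

namespace Pool.Agent.H65.TW

open Finset H331HC Pool.Agent.W292.RG

open Classical in
/-- for each vertex `x` at most `m / C` vertices `y` have more than `√(m / C)` common
non-neighbours with `x`, `C = 10 ^ 7` -/
def Cond {V : Type} [Fintype V] (G : SimpleGraph V) (m : ℕ) : Prop :=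
  ∀ x, 10 ^ 7 * (univ.filter (fun y => x ≠ y ∧ m < 10 ^ 7 * cd Gᶜ univ x y ^ 2)).card ≤ m

theorem log_le (w : ℕ) (hw : 0 < w) : Real.log w ≤ 2 * Real.sqrt w := by
  have hw' : (0 : ℝ) < w := by exact_mod_cast hw
  have h1 := Real.log_sqrt hw'.le
  have h2 := Real.log_le_sub_one_of_pos (Real.sqrt_pos.2 hw')
  linarith

/-- the number of conflicts -/
theorem arith_E {m w κ a : ℕ} (hm : 10 ^ 7 ≤ m) (hw : w ≤ m) (hmw : 10 * m ≤ 21 * w)
    (hκ : 10 ^ 7 * κ ^ 2 ≤ m) (ha : a = w / 100) :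
    2 * κ * Real.log w + 2 * κ * (w * κ) / a ≤ ((m / 700 : ℕ) : ℝ) := by
  have hw0 : 0 < w := by omega
  have g0 : (10 ^ 7 : ℝ) ≤ m := by exact_mod_cast hm
  have g1 : (w : ℝ) ≤ m := by exact_mod_cast hw
  have g2 : (10 : ℝ) * m ≤ 21 * w := by exact_mod_cast hmw
  have g3 : (10 ^ 7 : ℝ) * (κ : ℝ) ^ 2 ≤ m := by exact_mod_cast hκ
  have k0 : (0 : ℝ) ≤ κ := by positivity
  have w0 : (0 : ℝ) < w := by exact_mod_cast hw0
  have ha1 : w ≤ 101 * a := by omega
  have ha2 : 0 < a := by omega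
  have g4 : (w : ℝ) ≤ 101 * a := by exact_mod_cast ha1
  have g5 : (0 : ℝ) < a := by exact_mod_cast ha2
  have s0 := Real.sqrt_nonneg (w : ℝ)
  have s1 := Real.sq_sqrt w0.le
  -- κ √w ≤ m / 3162
  have e1 : 3162 * ((κ : ℝ) * Real.sqrt w) ≤ (m : ℝ) := by
    rw [← pow_le_pow_iff_left₀ (by positivity) (by linarith) two_ne_zero]
    calc (3162 * ((κ : ℝ) * Real.sqrt w)) ^ 2 = 9998244 * ((κ : ℝ) ^ 2 * (Real.sqrt w) ^ 2) := by
          ring
      _ = 9998244 * ((κ : ℝ) ^ 2 * w) := by rw [s1]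
      _ ≤ 10 ^ 7 * ((κ : ℝ) ^ 2 * w) := by
          apply mul_le_mul_of_nonneg_right (by norm_num) (by positivity)
      _ = (10 ^ 7 * (κ : ℝ) ^ 2) * w := by ring
      _ ≤ (m : ℝ) * m := mul_le_mul g3 g1 w0.le (by linarith)
      _ = (m : ℝ) ^ 2 := by ring
  have e2 : 2 * κ * Real.log w ≤ 4 * (κ * Real.sqrt w) := by
    have := mul_le_mul_of_nonneg_left (log_le w hw0) (show (0 : ℝ) ≤ 2 * κ by positivity)
    linarith
  have e3 : 2 * (κ : ℝ) * (w * κ) / a ≤ 202 * κ ^ 2 := by
    rw [div_le_iff₀ g5]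
    have := mul_le_mul_of_nonneg_left g4 (show (0 : ℝ) ≤ 2 * κ ^ 2 by positivity)
    nlinarith
  have e4 : (m : ℝ) / 700 - 1 ≤ ((m / 700 : ℕ) : ℝ) := by
    have : m ≤ 700 * (m / 700) + 699 := by omega
    have : (m : ℝ) ≤ 700 * ((m / 700 : ℕ) : ℝ) + 699 := by exact_mod_cast this
    linarith
  linarith

/-- the arithmetic of the local lemma -/
theorem arith_lll {m w h κ D b c E : ℕ} (hm : 10 ^ 7 ≤ m) (hmw : 10 * m ≤ 21 * w)
    (hh : 999 * h ≤ 2 * m) (hκ : 10 ^ 7 * κ ^ 2 ≤ m) (hD : 100 * D ≤ m) (hb : 100 * b ≤ m)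
    (hc : 10 ^ 7 * c ≤ m) (hE : 700 * E ≤ m) :
    ((D + b + c + E : ℕ) : ℝ) / (((w : ℝ) - 2 * h) - 1) +
      (κ : ℝ) * (κ - 1) / (((w : ℝ) - 2 * h) - 3) ≤ 1 / 16 := by
  have g0 : (10 ^ 7 : ℝ) ≤ m := by exact_mod_cast hm
  have g1 : (10 : ℝ) * m ≤ 21 * w := by exact_mod_cast hmw
  have g2 : (999 : ℝ) * h ≤ 2 * m := by exact_mod_cast hh
  have g3 : (10 ^ 7 : ℝ) * (κ : ℝ) ^ 2 ≤ m := by exact_mod_cast hκ
  have hB : 1000 * (D + b + c + E) ≤ 22 * m := by omega
  have g4 : (1000 : ℝ) * ((D + b + c + E : ℕ) : ℝ) ≤ 22 * m := by exact_mod_cast hB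
  have k0 : (0 : ℝ) ≤ κ := by positivity
  have hw1 : (0 : ℝ) < ((w : ℝ) - 2 * h) - 1 := by linarith
  have hw3 : (0 : ℝ) < ((w : ℝ) - 2 * h) - 3 := by linarith
  have a1 : ((D + b + c + E : ℕ) : ℝ) / (((w : ℝ) - 2 * h) - 1) ≤ 1 / 20 := by
    rw [div_le_div_iff₀ hw1 (by norm_num)]
    linarith
  have a4 : (κ : ℝ) * (κ - 1) / (((w : ℝ) - 2 * h) - 3) ≤ 1 / 80 := by
    rw [div_le_div_iff₀ hw3 (by norm_num)]
    nlinarith
  linarith

theorem kappa_le {m : ℕ} : 10 ^ 7 * Nat.sqrt (m / 10 ^ 7) ^ 2 ≤ m := by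
  have : Nat.sqrt (m / 10 ^ 7) ^ 2 ≤ m / 10 ^ 7 := by rw [sq]; exact Nat.sqrt_le _
  rw [Nat.le_div_iff_mul_le (by norm_num)] at this
  omega

theorem kappa_lt {m c : ℕ} (hc : Nat.sqrt (m / 10 ^ 7) < c) : m < 10 ^ 7 * c ^ 2 := by
  have : m / 10 ^ 7 < c ^ 2 := by rw [sq]; exact Nat.sqrt_lt.1 hc
  rw [Nat.div_lt_iff_lt_mul (by norm_num)] at this
  omega

theorem kappa_pos {m : ℕ} (hm : 10 ^ 7 ≤ m) : 0 < Nat.sqrt (m / 10 ^ 7) := by
  rw [Nat.sqrt_pos]
  exact Nat.div_pos hm (by norm_num)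

open Classical in
theorem cond_count {V : Type} [Fintype V] (G : SimpleGraph V) (W : Finset V) (m : ℕ)
    (hC : Cond G m) (x : V) :
    (W.filter (fun y => x ≠ y ∧ Nat.sqrt (m / 10 ^ 7) < cd Gᶜ W x y)).card ≤ m / 10 ^ 7 := by
  rw [Nat.le_div_iff_mul_le (by norm_num), mul_comm]
  refine le_trans (Nat.mul_le_mul_left _ (card_le_card ?_)) (hC x)
  intro y hy
  rw [mem_filter] at hy ⊢
  refine ⟨mem_univ _, hy.2.1, kappa_lt (lt_of_lt_of_le hy.2.2 ?_)⟩
  exact card_le_card (filter_subset_filter _ (subset_univ _))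

open Classical in
/-- few vertices have more than `m / 100` non-neighbours -/
theorem high_le {V : Type} [Fintype V] (G : SimpleGraph V) (W X : Finset V) (m : ℕ)
    (hC : Cond G m) (hm : 10 ^ 7 ≤ m) (hw : W.card ≤ m) (hXW : X ⊆ W)
    (hX : ∀ x ∈ X, m ≤ 100 * dg Gᶜ W x) : 999 * X.card ≤ 2 * m := by
  set κ := Nat.sqrt (m / 10 ^ 7) with hκ
  have k1 : 10 ^ 7 * κ ^ 2 ≤ m := kappa_le
  have k3 : 0 < κ := kappa_pos hm
  have k4 : κ ≤ κ ^ 2 := by nlinarith
  have e1 := few_high Gᶜ W X hXW m (m / 10 ^ 7) κ hX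
    (by
      intro x _
      refine le_trans (card_le_card ?_) (cond_count G W m hC x)
      exact filter_subset_filter _ hXW)
  have e2 : 10 ^ 7 * κ ≤ m := by omega
  have e3 : 10 ^ 7 * (m / 10 ^ 7 + 1) ≤ 2 * m := by omega
  have e4 : 10 ^ 7 * (X.card * κ + (m / 10 ^ 7 + 1) * W.card) ≤ X.card * m + 2 * m * m := by
    calc 10 ^ 7 * (X.card * κ + (m / 10 ^ 7 + 1) * W.card)
        = X.card * (10 ^ 7 * κ) + (10 ^ 7 * (m / 10 ^ 7 + 1)) * W.card := by ring
      _ ≤ X.card * m + (2 * m) * m :=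
          Nat.add_le_add (Nat.mul_le_mul_left _ e2) (Nat.mul_le_mul e3 hw)
  have e5 : 10 ^ 7 * (X.card * m ^ 2) ≤ 10000 * (m * (X.card * m + 2 * m * m)) := by
    calc 10 ^ 7 * (X.card * m ^ 2) ≤
          10 ^ 7 * (10000 * (W.card * (X.card * κ + (m / 10 ^ 7 + 1) * W.card))) :=
          Nat.mul_le_mul_left _ e1
      _ = 10000 * (W.card * (10 ^ 7 * (X.card * κ + (m / 10 ^ 7 + 1) * W.card))) := by ring
      _ ≤ 10000 * (m * (X.card * m + 2 * m * m)) :=
          Nat.mul_le_mul_left _ (Nat.mul_le_mul hw e4)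
  have e6 : (10 ^ 7 * X.card) * m ^ 2 ≤ (10000 * (X.card + 2 * m)) * m ^ 2 := by
    calc (10 ^ 7 * X.card) * m ^ 2 = 10 ^ 7 * (X.card * m ^ 2) := by ring
      _ ≤ _ := e5
      _ = (10000 * (X.card + 2 * m)) * m ^ 2 := by ring
  have e7 := Nat.le_of_mul_le_mul_right e6 (by positivity)
  omega

open Classical in
theorem not_all_high {V : Type} [Fintype V] (G : SimpleGraph V)
    (hC : Cond G (Fintype.card V)) (hm : 10 ^ 7 ≤ Fintype.card V)
    (hX : ∀ x ∈ (univ : Finset V), Fintype.card V ≤ 100 * dg Gᶜ univ x) : False := by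
  have := high_le G univ univ _ hC hm (by rw [card_univ]) (Finset.Subset.refl _) hX
  rw [card_univ] at this
  omega

open Classical in
theorem pairing' {V : Type} [Fintype V] (G : SimpleGraph V)
    (W : Finset V) (m b : ℕ) (P : V → V → Prop) (hC : Cond G m) (hm : 10 ^ 7 ≤ m)
    (hw : W.card ≤ m) (hmw : 10 * m ≤ 21 * W.card) (hb : 100 * b ≤ m)
    (hPs : ∀ x y, P x y → P y x)
    (hPb : ∀ x ∈ W, (W.filter (fun y => ¬ P x y)).card ≤ b)
    (hG : ∀ x ∈ W, m < 100 * dg Gᶜ W x →
      W.card ≤ 22 * (W.filter (fun y => G.Adj x y)).card)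
    (hW : Even W.card) :
    ∃ f : V → V, (∀ x ∈ W, f (f x) = x) ∧ (∀ x ∈ W, f x ∈ W ∧ G.Adj x (f x) ∧ P x (f x)) ∧
      (∀ x ∈ W, ∀ y ∈ W, ¬ QQ Gᶜ x (f x) y (f y)) := by
  have k1 : 10 ^ 7 * Nat.sqrt (m / 10 ^ 7) ^ 2 ≤ m := kappa_le
  have k3 : 0 < Nat.sqrt (m / 10 ^ 7) := kappa_pos hm
  have hh : 999 * (W.filter (fun x => m / 100 < dg Gᶜ W x)).card ≤ 2 * m := by
    apply high_le G W _ m hC hm hw (filter_subset _ _)
    intro x hx
    have := (mem_filter.1 hx).2
    omega
  refine pairing V G W (W.filter (fun x => m / 100 < dg Gᶜ W x)).card (m / 100) (m / 10 ^ 7) b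
    (Nat.sqrt (m / 10 ^ 7)) (W.card / 100) (m / 700) P k3 (by omega)
    (arith_E hm hw hmw k1 rfl) le_rfl ?_ hPs hPb ?_ hW (by omega) ?_
  · exact fun x _ => cond_count G W m hC x
  · intro x hx hd
    have := hG x hx (by omega)
    omega
  · exact arith_lll hm hmw hh k1 (Nat.mul_div_le _ _) hb (Nat.mul_div_le _ _) (Nat.mul_div_le _ _)

open Classical in
/-- for small `m` the complement is a matching -/
theorem cond_small {V : Type} [Fintype V] (G : SimpleGraph V) (m : ℕ) (hC : Cond G m)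
    (hm : m < 10 ^ 7) (x y z : V) (h1 : Gᶜ.Adj x y) (h2 : Gᶜ.Adj x z) : y = z := by
  by_contra hne
  have h3 := hC y
  have h4 : z ∈ univ.filter (fun u => y ≠ u ∧ m < 10 ^ 7 * cd Gᶜ univ y u ^ 2) := by
    refine mem_filter.2 ⟨mem_univ _, hne, ?_⟩
    have : 1 ≤ cd Gᶜ univ y z := by
      unfold cd
      exact card_pos.2 ⟨x, mem_filter.2 ⟨mem_univ _, h1.symm, h2.symm⟩⟩
    have := Nat.one_le_pow 2 _ this
    omega
  have h5 := card_pos.2 ⟨z, h4⟩
  omega

/-- a matching has an independent set which contains half of the vertices -/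
theorem matching_indep {V : Type} [Fintype V] (H : SimpleGraph V)
    (h1 : ∀ x y z, H.Adj x y → H.Adj x z → y = z) :
    ∃ S : Finset V, (∀ x ∈ S, ∀ y ∈ S, ¬ H.Adj x y) ∧ Fintype.card V ≤ 2 * S.card := by
  classical
  let φ := Fintype.equivFin V
  set S : Finset V := univ.filter (fun x => ∀ y, H.Adj x y → φ x < φ y) with hS
  have hex : ∀ x, ∃ y, x ∉ S → H.Adj x y ∧ φ y < φ x := by
    intro x
    by_cases hx : x ∈ S
    · exact ⟨x, fun h => absurd hx h⟩
    · simp only [hS, mem_filter, mem_univ, true_and] at hx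
      push Not at hx
      obtain ⟨y, hy, hle⟩ := hx
      refine ⟨y, fun _ => ⟨hy, lt_of_le_of_ne hle ?_⟩⟩
      intro h
      exact hy.ne (φ.injective h).symm
  choose ψ hψ using hex
  refine ⟨S, ?_, ?_⟩
  · intro x hx y hy hxy
    simp only [hS, mem_filter, mem_univ, true_and] at hx hy
    exact absurd (hx y hxy) (not_lt.2 (hy x hxy.symm).le)
  · have h2 : (Sᶜ : Finset V).card ≤ S.card := by
      refine card_le_card_of_injOn ψ ?_ ?_
      · intro x hx
        have hx' := hψ x (mem_compl.1 (mem_coe.1 hx))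
        rw [mem_coe, hS, mem_filter]
        refine ⟨mem_univ _, fun y hy => ?_⟩
        rw [h1 _ _ _ hy hx'.1.symm]
        exact hx'.2
      · intro x hx y hy hxy
        have hx' := hψ x (mem_compl.1 (mem_coe.1 hx))
        have hy' := hψ y (mem_compl.1 (mem_coe.1 hy))
        rw [← hxy] at hy'
        exact h1 _ _ _ hx'.1.symm hy'.1.symm
    have h3 := card_add_card_compl S
    omega

open Classical in
/-- `K_{⌈n/2⌉}` minors -/
theorem half {V : Type} [Fintype V] (G : SimpleGraph V) (hC : Cond G (Fintype.card V))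
    (hG : ∀ x, Fintype.card V ≤ 20 * (univ.filter (fun y => G.Adj x y)).card) :
    KMinor G ((Fintype.card V + 1) / 2) := by
  set n := Fintype.card V with hn'
  rcases Nat.lt_or_ge n (10 ^ 7) with h0 | hpos
  · obtain ⟨S, hS1, hS2⟩ := matching_indep Gᶜ (fun x y z => cond_small G n hC h0 x y z)
    refine (Pool.Agent.W22.RGM0.M0 V G S ∅ id (by simp) (by simp) (by simp) (by simp) ?_ (by simp)
      (by simp) S.card (by simp)).mono (by omega)
    intro s hs t ht hst
    by_contra hcon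
    exact hS1 s hs t ht ((SimpleGraph.compl_adj G s t).2 ⟨hst, hcon⟩)
  · rcases Nat.even_or_odd n with he | ho
    · obtain ⟨f, f1, f2, f3⟩ := pairing' G univ n 0 (fun _ _ => True) hC hpos
        (by rw [card_univ]) (by rw [card_univ, ← hn']; omega) (by omega)
        (fun _ _ _ => trivial) (by simp)
        (by
          intro x _ _
          rw [card_univ, ← hn']
          have := hG x
          omega)
        (by rw [card_univ, ← hn']; exact he)
      refine Pool.Agent.W22.RGM0.M0 V G ∅ univ f (by simp) (fun x hx => (f2 x hx).1)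
        (fun x hx => f1 x hx) (fun x hx => (f2 x hx).2.1) (by simp) (by simp) f3 _ ?_
      rw [card_univ, ← hn', card_empty]
      rw [Nat.even_iff] at he
      omega
    · -- odd
      have hne : (univ : Finset V).Nonempty := by
        rw [← card_pos, card_univ]; omega
      obtain ⟨s, _, hs⟩ := exists_min_image univ (fun x => dg Gᶜ univ x) hne
      have hc : (univ.erase s : Finset V).card = n - 1 := by
        rw [card_erase_of_mem (mem_univ _), card_univ, ← hn']
      have ho' := Nat.odd_iff.1 ho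
      have hb : 100 * dg Gᶜ univ s ≤ n := by
        by_contra hcon
        push Not at hcon
        -- then all vertices have large degree
        have hall : ∀ x ∈ (univ : Finset V), n ≤ 100 * dg Gᶜ univ x := by
          intro x hx
          have := hs x hx
          omega
        exact not_all_high G hC hpos hall
      obtain ⟨f, f1, f2, f3⟩ := pairing' G (univ.erase s) n (dg Gᶜ univ s)
        (fun x y => ¬ (Gᶜ.Adj x s ∧ Gᶜ.Adj y s)) hC hpos
        (by rw [hc]; omega) (by rw [hc]; omega) hb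
        (fun x y h h' => h ⟨h'.2, h'.1⟩)
        (by
          intro x _
          unfold dg
          refine card_le_card ?_
          intro y hy
          simp only [mem_filter, not_not] at hy
          rw [mem_filter]
          exact ⟨mem_univ _, hy.2.2.symm⟩)
        (by
          intro x _ _
          rw [hc]
          have e1 := hG x
          have e2 : (univ.filter (fun y => G.Adj x y)).card ≤
              ((univ.erase s).filter (fun y => G.Adj x y)).card + 1 := by
            have : univ.filter (fun y => G.Adj x y) ⊆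
                insert s ((univ.erase s).filter (fun y => G.Adj x y)) := by
              intro y hy
              rw [mem_filter] at hy
              rw [mem_insert, mem_filter, mem_erase]
              by_cases h : y = s
              · exact Or.inl h
              · exact Or.inr ⟨⟨h, mem_univ _⟩, hy.2⟩
            exact (card_le_card this).trans (card_insert_le _ _)
          omega)
        (by rw [hc, Nat.even_iff]; omega)
      refine Pool.Agent.W22.RGM0.M0 V G {s} (univ.erase s) f (by simp) (fun x hx => (f2 x hx).1)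
        (fun x hx => f1 x hx) (fun x hx => (f2 x hx).2.1) ?_ ?_ f3 _ ?_
      · intro a ha b hb hab
        rw [mem_singleton] at ha hb
        exact absurd (ha.trans hb.symm) hab
      · intro x hx t ht
        rw [mem_singleton] at ht
        subst ht
        exact (f2 x hx).2.2
      · rw [card_singleton, hc]
        omega

end Pool.Agent.H65.TW
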