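import Pool.Agent.H65.TW.Pot

/-! Conflict free perfect pairings: few vertices of large degree in the complement, and for each
vertex few vertices with which it has many common non-neighbours. -/

set_option autoImplicit false
set_option linter.unusedSectionVars false

namespace Pool.Agent.H65.TW

open Finset H331HC Pool.Agent.W292.RG

theorem le_of_sq_le {a b : ℕ} (h : a ^ 2 ≤ b ^ 2) : a ≤ b :=
  le_of_pow_le_pow_left₀ (by norm_num) (Nat.zero_le _) h

open Classical in
/-- Conflict free perfect pairing of `W` with a prescribed property `P` of the pairs. -/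
theorem pairing (V : Type) [Fintype V] (G : SimpleGraph V)
    (W : Finset V) (h D c b κ a E : ℕ) (P : V → V → Prop) (hκ : 0 < κ) (ha : 0 < a)
    (hE : 2 * κ * Real.log W.card + 2 * κ * (W.card * κ) / a ≤ (E : ℝ))
    (hXc : (W.filter (fun x => D < dg Gᶜ W x)).card ≤ h)
    (hc : ∀ x ∈ W, (W.filter (fun y => x ≠ y ∧ κ < cd Gᶜ W x y)).card ≤ c)
    (hPs : ∀ x y, P x y → P y x)
    (hPb : ∀ x ∈ W, (W.filter (fun y => ¬ P x y)).card ≤ b)
    (hG : ∀ x ∈ W, D < dg Gᶜ W x →
      a + 2 * h + E + b + c ≤ (W.filter (fun y => G.Adj x y)).card)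
    (hW : Even W.card) (h5 : 5 + 2 * h ≤ W.card)
    (hlll : ((D + b + c + E : ℕ) : ℝ) / (((W.card : ℝ) - 2 * h) - 1) +
      (κ : ℝ) * (κ - 1) / (((W.card : ℝ) - 2 * h) - 3) ≤ 1 / 16) :
    ∃ f : V → V, (∀ x ∈ W, f (f x) = x) ∧ (∀ x ∈ W, f x ∈ W ∧ G.Adj x (f x) ∧ P x (f x)) ∧
      (∀ x ∈ W, ∀ y ∈ W, ¬ QQ Gᶜ x (f x) y (f y)) := by
  set w := W.card with hw
  set X := W.filter (fun x => D < dg Gᶜ W x) with hX
  have hXW : X ⊆ W := filter_subset _ _
  let R : V → V → Prop := fun x y => G.Adj x y ∧ P x y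
  have hRs : ∀ x y, R x y → R y x := fun x y h => ⟨h.1.symm, hPs x y h.2⟩
  -- stage one
  have hcand : ∀ x ∈ X, a + X.card + E ≤ (cand Gᶜ W X κ R x).card := by
    intro x hx
    have hxW := hXW hx
    have g0 := hG x hxW (mem_filter.1 hx).2
    have g1 : W.filter (fun y => G.Adj x y) ⊆ ((cand Gᶜ W X κ R x ∪ X) ∪
        W.filter (fun y => ¬ P x y)) ∪
        W.filter (fun y => x ≠ y ∧ κ < cd Gᶜ W x y) := by
      intro y hy
      rw [mem_filter] at hy
      simp only [mem_union, mem_filter, cand, mem_sdiff, R]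
      by_cases a1 : y ∈ X
      · exact Or.inl (Or.inl (Or.inr a1))
      · by_cases a2 : P x y
        · by_cases a3 : κ < cd Gᶜ W x y
          · exact Or.inr ⟨hy.1, hy.2.ne, a3⟩
          · exact Or.inl (Or.inl (Or.inl ⟨⟨hy.1, a1⟩, ⟨hy.2, a2⟩, not_lt.1 a3⟩))
        · exact Or.inl (Or.inr ⟨hy.1, a2⟩)
    have g2 := card_le_card g1
    have g3 := card_union_le ((cand Gᶜ W X κ R x ∪ X) ∪ W.filter (fun y => ¬ P x y))
        (W.filter (fun y => x ≠ y ∧ κ < cd Gᶜ W x y))
    have g4 := card_union_le (cand Gᶜ W X κ R x ∪ X) (W.filter (fun y => ¬ P x y))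
    have g5 := card_union_le (cand Gᶜ W X κ R x) X
    have g6 := hPb x hxW
    have g7 := hc x hxW
    omega
  obtain ⟨g, hg1, hg2, hg3, hg4⟩ := greedy Gᶜ W X hXW κ a E hκ ha R (fun x z h => h.1.ne) hE hcand
  -- stage two
  set W' := (W \ X) \ X.image g with hW'
  have hW'W : ∀ x ∈ W', x ∈ W ∧ x ∉ X := by
    intro x hx
    rw [hW', mem_sdiff, mem_sdiff] at hx
    exact hx.1
  have hcW' : W'.card + 2 * X.card = w := by
    have e1 : (X.image g).card = X.card :=
      card_image_of_injOn (fun x hx y hy h => hg2 x (mem_coe.1 hx) y (mem_coe.1 hy) h)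
    have e2 : X.image g ⊆ W \ X := by
      intro z hz
      obtain ⟨x, hx, rfl⟩ := mem_image.1 hz
      exact (hg1 x hx).1
    have e3 : W'.card = (W \ X).card - (X.image g).card := card_sdiff_of_subset e2
    have e4 : (W \ X).card = W.card - X.card := card_sdiff_of_subset hXW
    have e5 := card_le_card e2
    have e6 := card_le_card hXW
    omega
  let R' : V → V → Prop := fun x y => x ≠ y ∧ R x y ∧
    cd Gᶜ W x y ≤ κ ∧ ∀ u ∈ X, ¬ QQ Gᶜ u (g u) x y
  have hR's : ∀ x y, R' x y → R' y x := by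
    rintro x y ⟨a1, a2, a3, a4⟩
    refine ⟨a1.symm, hRs _ _ a2, ?_, fun u hu h => a4 u hu h.swap'⟩
    rw [cd_comm]; exact a3
  have hbad : ∀ x ∈ W', (W'.filter (fun y => x ≠ y ∧ ¬ R' x y)).card ≤ D + b + c + E := by
    intro x hx
    obtain ⟨hxW, hxX⟩ := hW'W x hx
    have d1 : dg Gᶜ W x ≤ D := by
      by_contra hcon
      exact hxX (mem_filter.2 ⟨hxW, not_le.1 hcon⟩)
    have g1 : W'.filter (fun y => x ≠ y ∧ ¬ R' x y) ⊆ ((W.filter (fun y => Gᶜ.Adj x y) ∪
        W.filter (fun y => ¬ P x y)) ∪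
        W.filter (fun y => x ≠ y ∧ κ < cd Gᶜ W x y)) ∪
        W.filter (fun y => x ≠ y ∧ cd Gᶜ W x y ≤ κ ∧ ∃ u ∈ X, QQ Gᶜ u (g u) x y) := by
      intro y hy
      rw [mem_filter] at hy
      obtain ⟨hyW', hxy, hR⟩ := hy
      have hyW := (hW'W y hyW').1
      simp only [mem_union, mem_filter]
      by_cases a1 : G.Adj x y
      · by_cases a2 : P x y
        · by_cases a3 : κ < cd Gᶜ W x y
          · exact Or.inl (Or.inr ⟨hyW, hxy, a3⟩)
          · right
            refine ⟨hyW, hxy, not_lt.1 a3, ?_⟩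
            by_contra hcon
            push Not at hcon
            exact hR ⟨hxy, ⟨a1, a2⟩, not_lt.1 a3, hcon⟩
        · exact Or.inl (Or.inl (Or.inr ⟨hyW, a2⟩))
      · exact Or.inl (Or.inl (Or.inl ⟨hyW, (SimpleGraph.compl_adj G _ _).2 ⟨hxy, a1⟩⟩))
    have g2 := card_le_card g1
    have g3 := card_union_le ((W.filter (fun y => Gᶜ.Adj x y) ∪
        W.filter (fun y => ¬ P x y)) ∪
        W.filter (fun y => x ≠ y ∧ κ < cd Gᶜ W x y))
        (W.filter (fun y => x ≠ y ∧ cd Gᶜ W x y ≤ κ ∧ ∃ u ∈ X, QQ Gᶜ u (g u) x y))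
    have g4 := card_union_le (W.filter (fun y => Gᶜ.Adj x y) ∪
        W.filter (fun y => ¬ P x y)) (W.filter (fun y => x ≠ y ∧ κ < cd Gᶜ W x y))
    have g5 := card_union_le (W.filter (fun y => Gᶜ.Adj x y)) (W.filter (fun y => ¬ P x y))
    have g6 := hPb x hxW
    have g7 := hc x hxW
    have g8 := hg4 x hxW
    have g9 : (W.filter (fun y => Gᶜ.Adj x y)).card = dg Gᶜ W x := rfl
    omega
  have hWe : Even W'.card := by
    rw [Nat.even_iff] at hW ⊢
    omega
  have hlll' : ((D + b + c + E : ℕ) : ℝ) / ((W'.card : ℝ) - 1) +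
      (κ : ℝ) * (κ - 1) / ((W'.card : ℝ) - 3) ≤ 1 / 16 := by
    have e1 : (w : ℝ) - 2 * h ≤ W'.card := by
      have a1 : w ≤ W'.card + 2 * h := by omega
      have a2 : (w : ℝ) ≤ W'.card + 2 * h := by exact_mod_cast a1
      linarith
    have e2 : (5 : ℝ) ≤ (w : ℝ) - 2 * h := by
      have a2 : (5 : ℝ) + 2 * h ≤ w := by exact_mod_cast h5
      linarith
    have e3 : (0 : ℝ) ≤ (κ : ℝ) * (κ - 1) := by
      have : (1 : ℝ) ≤ κ := by exact_mod_cast hκ
      nlinarith
    refine le_trans (add_le_add ?_ ?_) hlll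
    · exact div_le_div_of_nonneg_left (by positivity) (by linarith) (by linarith)
    · exact div_le_div_of_nonneg_left e3 (by linarith) (by linarith)
  obtain ⟨f', f1, f2, f3, f4⟩ := TH446.HN.perfect Gᶜ R' hR's W' hWe (by omega)
    (D + b + c + E) κ hbad
    (fun x _ y _ hxy => by
      refine le_trans (card_le_card ?_) hxy.2.2.1
      apply filter_subset_filter
      intro z hz
      exact (hW'W z hz).1)
    hlll'
  obtain ⟨f, e1, e2, e3⟩ := glue Gᶜ R hRs W X W' g f' hXW hW'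
    (fun x hx => ⟨(hg1 x hx).1, (hg1 x hx).2.1⟩) hg2 hg3 f1
    (fun x hx => ⟨(f3 x hx).1, (f3 x hx).2.2.2.1⟩) f4
    (fun x hx y hy hq => (f3 y hy).2.2.2.2.2 x hx hq)
  exact ⟨f, e1, e2, e3⟩

/-- there are few vertices of large degree -/
theorem few_high {V : Type} [Fintype V] [DecidableEq V] (H : SimpleGraph V) [DecidableRel H.Adj]
    (W X : Finset V) (_hX : X ⊆ W) (m c κ : ℕ)
    (hd : ∀ x ∈ X, m ≤ 100 * dg H W x)
    (hc : ∀ x ∈ X, (X.filter (fun y => x ≠ y ∧ κ < cd H W x y)).card ≤ c) :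
    X.card * m ^ 2 ≤ 10000 * (W.card * (X.card * κ + (c + 1) * W.card)) := by
  -- Cauchy-Schwarz
  have h1 : (∑ x ∈ X, dg H W x) ^ 2 ≤ W.card * ∑ x ∈ X, ∑ y ∈ X, cd H W x y := by
    have e1 : ∑ x ∈ X, dg H W x = ∑ v ∈ W, (X.filter (fun x => H.Adj x v)).card := by
      unfold dg
      calc ∑ x ∈ X, (W.filter (fun y => H.Adj x y)).card
          = ∑ x ∈ X, ∑ v ∈ W, (if H.Adj x v then 1 else 0) :=
            sum_congr rfl (fun x _ => by rw [← Finset.card_filter])
        _ = ∑ v ∈ W, ∑ x ∈ X, (if H.Adj x v then 1 else 0) := sum_comm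
        _ = _ := sum_congr rfl (fun v _ => by rw [← Finset.card_filter])
    have e2 : ∑ x ∈ X, ∑ y ∈ X, cd H W x y = ∑ v ∈ W, (X.filter (fun x => H.Adj x v)).card ^ 2 := by
      unfold cd
      calc ∑ x ∈ X, ∑ y ∈ X, (W.filter (fun z => H.Adj x z ∧ H.Adj y z)).card
          = ∑ x ∈ X, ∑ y ∈ X, ∑ v ∈ W, (if H.Adj x v ∧ H.Adj y v then 1 else 0) := by
            refine sum_congr rfl (fun x _ => sum_congr rfl (fun y _ => ?_))
            rw [← Finset.card_filter]
        _ = ∑ x ∈ X, ∑ v ∈ W, ∑ y ∈ X, (if H.Adj x v ∧ H.Adj y v then 1 else 0) :=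
            sum_congr rfl (fun x _ => sum_comm)
        _ = ∑ v ∈ W, ∑ x ∈ X, ∑ y ∈ X, (if H.Adj x v ∧ H.Adj y v then 1 else 0) := sum_comm
        _ = _ := by
            refine sum_congr rfl (fun v _ => ?_)
            rw [sq, Finset.card_filter, sum_mul_sum]
            refine sum_congr rfl (fun x _ => sum_congr rfl (fun y _ => ?_))
            by_cases a1 : H.Adj x v <;> by_cases a2 : H.Adj y v <;> simp [a1, a2]
    rw [e1, e2]
    exact sq_sum_le_card_mul_sum_sq
  have h2 : ∑ x ∈ X, ∑ y ∈ X, cd H W x y ≤ X.card * (X.card * κ + (c + 1) * W.card) := by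
    rw [← smul_eq_mul, ← sum_const]
    refine sum_le_sum (fun x hx => ?_)
    have e1 : ∀ y, cd H W x y ≤ W.card := fun y => card_le_card (filter_subset _ _)
    calc ∑ y ∈ X, cd H W x y
        ≤ ∑ y ∈ X, (κ + (if (x ≠ y ∧ κ < cd H W x y) then W.card else 0) +
            (if x = y then W.card else 0)) := by
          refine sum_le_sum (fun y _ => ?_)
          by_cases a1 : x = y
          · rw [if_pos a1]
            have := e1 y
            omega
          · by_cases a2 : κ < cd H W x y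
            · rw [if_pos ⟨a1, a2⟩]
              have := e1 y
              omega
            · omega
      _ = X.card * κ + (X.filter (fun y => x ≠ y ∧ κ < cd H W x y)).card * W.card +
            (X.filter (fun y => x = y)).card * W.card := by
          rw [sum_add_distrib, sum_add_distrib, sum_const, smul_eq_mul, ← sum_filter,
            ← sum_filter, sum_const, sum_const, smul_eq_mul, smul_eq_mul]
      _ ≤ X.card * κ + c * W.card + 1 * W.card := by
          refine Nat.add_le_add (Nat.add_le_add le_rfl (Nat.mul_le_mul_right _ (hc x hx)))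
            (Nat.mul_le_mul_right _ ?_)
          refine card_le_one.2 ?_
          intro u hu v hv
          rw [mem_filter] at hu hv
          rw [← hu.2, ← hv.2]
      _ = _ := by ring
  have h3 : (X.card * m) ^ 2 ≤ 10000 * (∑ x ∈ X, dg H W x) ^ 2 := by
    have : X.card * m ≤ 100 * ∑ x ∈ X, dg H W x := by
      rw [mul_sum, ← smul_eq_mul, ← sum_const]
      exact sum_le_sum (fun x hx => hd x hx)
    calc (X.card * m) ^ 2 ≤ (100 * ∑ x ∈ X, dg H W x) ^ 2 := Nat.pow_le_pow_left this 2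
      _ = _ := by ring
  rcases Nat.eq_zero_or_pos X.card with h0 | h0
  · rw [h0]; simp
  · have h4 : X.card * (X.card * m ^ 2) ≤
        X.card * (10000 * (W.card * (X.card * κ + (c + 1) * W.card))) := by
      calc X.card * (X.card * m ^ 2) = (X.card * m) ^ 2 := by ring
        _ ≤ 10000 * (∑ x ∈ X, dg H W x) ^ 2 := h3
        _ ≤ 10000 * (W.card * ∑ x ∈ X, ∑ y ∈ X, cd H W x y) := Nat.mul_le_mul_left _ h1
        _ ≤ 10000 * (W.card * (X.card * (X.card * κ + (c + 1) * W.card))) :=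
            Nat.mul_le_mul_left _ (Nat.mul_le_mul_left _ h2)
        _ = _ := by ring
    exact Nat.le_of_mul_le_mul_left h4 h0

end Pool.Agent.H65.TW
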