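import Pool.Agent.H65.TW.Basic

/-! Choosing partners for the vertices of large degree one after the other, controlled by a
potential function. -/

set_option autoImplicit false
set_option linter.unusedSectionVars false

namespace Pool.Agent.H65.TW

open Finset H331HC Pool.Agent.W292.RG

variable {V : Type} [Fintype V] [DecidableEq V]

/-- number of common neighbours inside `W` -/
def cd (H : SimpleGraph V) [DecidableRel H.Adj] (W : Finset V) (x y : V) : ℕ :=
  (W.filter (fun z => H.Adj x z ∧ H.Adj y z)).card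

/-- the vertices which have few common neighbours with `v` -/
def bl (H : SimpleGraph V) [DecidableRel H.Adj] (W : Finset V) (κ : ℕ) (v : V) : Finset V :=
  W.filter (fun y => v ≠ y ∧ cd H W v y ≤ κ)

/-- number of `y` such that `v y` is in conflict with `x z` -/
def xi (H : SimpleGraph V) [DecidableRel H.Adj] (W : Finset V) (κ : ℕ) (v x z : V) : ℕ :=
  if H.Adj x v ∧ H.Adj z v then ((bl H W κ v).filter (fun y => H.Adj x y ∧ H.Adj z y)).card else 0

/-- bound for the average of `xi` -/
def Mx (H : SimpleGraph V) [DecidableRel H.Adj] (W : Finset V) (κ : ℕ) (v x : V) : ℕ :=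
  if H.Adj x v then ((bl H W κ v).filter (fun y => H.Adj x y)).card else 0

theorem cd_comm (H : SimpleGraph V) [DecidableRel H.Adj] (W : Finset V) (x y : V) :
    cd H W x y = cd H W y x := by
  unfold cd
  congr 1
  ext z
  simp only [mem_filter]
  tauto

theorem xi_le (H : SimpleGraph V) [DecidableRel H.Adj] (W : Finset V) (κ : ℕ) (v x z : V) :
    xi H W κ v x z ≤ cd H W x z := by
  unfold xi
  split_ifs
  · unfold cd bl
    refine card_le_card ?_
    intro y hy
    simp only [mem_filter] at hy ⊢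
    exact ⟨hy.1.1, hy.2⟩
  · exact Nat.zero_le _

theorem sum_xi (H : SimpleGraph V) [DecidableRel H.Adj] (W : Finset V) (κ : ℕ) (v x : V) :
    ∑ z ∈ W, xi H W κ v x z ≤ κ * Mx H W κ v x := by
  unfold xi Mx
  by_cases hx : H.Adj x v
  · simp only [hx, true_and, if_true]
    calc ∑ z ∈ W, (if H.Adj z v then
          ((bl H W κ v).filter (fun y => H.Adj x y ∧ H.Adj z y)).card else 0)
        = ∑ z ∈ W, ∑ y ∈ (bl H W κ v).filter (fun y => H.Adj x y),
            (if H.Adj z v ∧ H.Adj z y then 1 else 0) := by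
          refine sum_congr rfl (fun z _ => ?_)
          split_ifs with hz
          · simp only [hz, true_and]
            rw [← Finset.card_filter, Finset.filter_filter]
          · simp [hz]
      _ = ∑ y ∈ (bl H W κ v).filter (fun y => H.Adj x y), ∑ z ∈ W,
            (if H.Adj z v ∧ H.Adj z y then 1 else 0) := sum_comm
      _ = ∑ y ∈ (bl H W κ v).filter (fun y => H.Adj x y), cd H W v y := by
          refine sum_congr rfl (fun y _ => ?_)
          rw [← Finset.card_filter]
          unfold cd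
          congr 1
          ext z
          simp only [mem_filter]
          constructor
          · rintro ⟨a, b, c⟩; exact ⟨a, b.symm, c.symm⟩
          · rintro ⟨a, b, c⟩; exact ⟨a, b.symm, c.symm⟩
      _ ≤ ∑ y ∈ (bl H W κ v).filter (fun y => H.Adj x y), κ := by
          refine sum_le_sum (fun y hy => ?_)
          exact (mem_filter.1 (mem_filter.1 hy).1).2.2
      _ = κ * ((bl H W κ v).filter (fun y => H.Adj x y)).card := by
          rw [sum_const, smul_eq_mul, mul_comm]
  · simp [hx]

theorem sum_Mx (H : SimpleGraph V) [DecidableRel H.Adj] (W X : Finset V) (hX : X ⊆ W) (κ : ℕ)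
    (v : V) : ∑ x ∈ X, Mx H W κ v x ≤ W.card * κ := by
  calc ∑ x ∈ X, Mx H W κ v x ≤ ∑ x ∈ W, Mx H W κ v x := sum_le_sum_of_subset hX
    _ = ∑ x ∈ W, ∑ y ∈ bl H W κ v, (if H.Adj x v ∧ H.Adj x y then 1 else 0) := by
        refine sum_congr rfl (fun x _ => ?_)
        unfold Mx
        split_ifs with hx
        · simp only [hx, true_and]
          rw [← Finset.card_filter]
        · simp [hx]
    _ = ∑ y ∈ bl H W κ v, ∑ x ∈ W, (if H.Adj x v ∧ H.Adj x y then 1 else 0) := sum_comm
    _ = ∑ y ∈ bl H W κ v, cd H W v y := by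
        refine sum_congr rfl (fun y _ => ?_)
        rw [← Finset.card_filter]
        unfold cd
        congr 1
        ext z
        simp only [mem_filter]
        constructor
        · rintro ⟨a, b, c⟩; exact ⟨a, b.symm, c.symm⟩
        · rintro ⟨a, b, c⟩; exact ⟨a, b.symm, c.symm⟩
    _ ≤ ∑ y ∈ bl H W κ v, κ := sum_le_sum (fun y hy => (mem_filter.1 hy).2.2)
    _ = (bl H W κ v).card * κ := by rw [sum_const, smul_eq_mul]
    _ ≤ W.card * κ := Nat.mul_le_mul_right _ (card_le_card (filter_subset _ _))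

/-- the factors of the potential -/
noncomputable def fac (H : SimpleGraph V) [DecidableRel H.Adj] (W : Finset V) (κ a : ℕ)
    (v x z : V) : ℝ :=
  (1 + (xi H W κ v x z : ℝ) / κ) / (1 + (Mx H W κ v x : ℝ) / a)

theorem fac_pos (H : SimpleGraph V) [DecidableRel H.Adj] (W : Finset V) (κ a : ℕ)
    (v x z : V) : 0 < fac H W κ a v x z := by
  unfold fac
  positivity

/-- the potential -/
noncomputable def Pot (H : SimpleGraph V) [DecidableRel H.Adj] (W : Finset V) (κ a : ℕ)
    (g : V → V) (Y : Finset V) : ℝ :=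
  ∑ v ∈ W, ∏ x ∈ Y, fac H W κ a v x (g x)

theorem log_lower {t : ℝ} (h0 : 0 ≤ t) (h1 : t ≤ 1) : t / 2 ≤ Real.log (1 + t) := by
  have h2 := Real.one_sub_inv_le_log_of_pos (show (0 : ℝ) < 1 + t by linarith)
  have h3 : t / 2 ≤ 1 - (1 + t)⁻¹ := by
    rw [show (1 : ℝ) - (1 + t)⁻¹ = t / (1 + t) by field_simp; ring]
    rw [div_le_div_iff₀ (by norm_num) (by linarith)]
    nlinarith
  linarith

/-- a small potential controls the numbers of conflicts -/
theorem pot_bound (H : SimpleGraph V) [DecidableRel H.Adj] (W X Y : Finset V) (hX : X ⊆ W)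
    (hY : Y ⊆ X) (κ a : ℕ) (hκ : 0 < κ) (ha : 0 < a) (g : V → V)
    (hg : ∀ x ∈ Y, cd H W x (g x) ≤ κ) (hP : Pot H W κ a g Y ≤ W.card) (v : V) (hv : v ∈ W) :
    ((∑ x ∈ Y, xi H W κ v x (g x) : ℕ) : ℝ) ≤
      2 * κ * Real.log W.card + 2 * κ * (W.card * κ) / a := by
  have hκ' : (0 : ℝ) < κ := by exact_mod_cast hκ
  have ha' : (0 : ℝ) < a := by exact_mod_cast ha
  have hw : (0 : ℝ) < W.card := by
    have : 0 < W.card := card_pos.2 ⟨v, hv⟩
    exact_mod_cast this
  have h1 : ∏ x ∈ Y, fac H W κ a v x (g x) ≤ W.card := by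
    refine le_trans ?_ hP
    unfold Pot
    exact single_le_sum (f := fun v => ∏ x ∈ Y, fac H W κ a v x (g x))
      (fun u _ => (prod_pos (fun x _ => fac_pos H W κ a u x (g x))).le) hv
  have h2 : ∑ x ∈ Y, Real.log (fac H W κ a v x (g x)) ≤ Real.log W.card := by
    rw [← Real.log_prod (fun x _ => (fac_pos H W κ a v x (g x)).ne')]
    exact Real.log_le_log (prod_pos (fun x _ => fac_pos H W κ a v x (g x))) h1
  have h3 : ∀ x ∈ Y, (xi H W κ v x (g x) : ℝ) / κ / 2 - (Mx H W κ v x : ℝ) / a ≤
      Real.log (fac H W κ a v x (g x)) := by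
    intro x hx
    unfold fac
    rw [Real.log_div (by positivity) (by positivity)]
    have e1 : (xi H W κ v x (g x) : ℝ) ≤ κ := by
      exact_mod_cast (xi_le H W κ v x (g x)).trans (hg x hx)
    have e2 := log_lower (t := (xi H W κ v x (g x) : ℝ) / κ) (by positivity)
      (by rw [div_le_one hκ']; exact e1)
    have e3 := Real.log_le_sub_one_of_pos (show (0 : ℝ) < 1 + (Mx H W κ v x : ℝ) / a by positivity)
    linarith
  have h4 := sum_le_sum h3
  rw [sum_sub_distrib, ← sum_div, ← sum_div, ← sum_div] at h4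
  have h5 : (∑ x ∈ Y, (Mx H W κ v x : ℝ)) ≤ W.card * κ := by
    have := (sum_le_sum_of_subset (f := fun x => Mx H W κ v x) hY).trans (sum_Mx H W X hX κ v)
    exact_mod_cast this
  have h6 : (∑ x ∈ Y, (Mx H W κ v x : ℝ)) / a ≤ W.card * κ / a :=
    div_le_div_of_nonneg_right h5 ha'.le
  have h7 : (∑ x ∈ Y, (xi H W κ v x (g x) : ℝ)) / κ / 2 ≤
      Real.log W.card + W.card * κ / a := by linarith
  rw [div_div, div_le_iff₀ (by positivity)] at h7
  push_cast
  calc (∑ x ∈ Y, (xi H W κ v x (g x) : ℝ)) ≤ (Real.log W.card + W.card * κ / a) * (κ * 2) := h7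
    _ = _ := by ring

/-- the candidates for partners of `x` -/
def cand (H : SimpleGraph V) [DecidableRel H.Adj] (W X : Finset V) (κ : ℕ) (R : V → V → Prop)
    [DecidableRel R] (x : V) : Finset V :=
  (W \ X).filter (fun z => R x z ∧ cd H W x z ≤ κ)

theorem greedy_aux (H : SimpleGraph V) [DecidableRel H.Adj] (W X : Finset V) (hX : X ⊆ W)
    (κ a E : ℕ) (hκ : 0 < κ) (ha : 0 < a)
    (R : V → V → Prop) [DecidableRel R] (hR : ∀ x z, R x z → x ≠ z)
    (hE : 2 * κ * Real.log W.card + 2 * κ * (W.card * κ) / a ≤ (E : ℝ))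
    (hc : ∀ x ∈ X, a + X.card + E ≤ (cand H W X κ R x).card) :
    ∀ Y : Finset V, Y ⊆ X → ∃ g : V → V, (∀ x ∈ Y, g x ∈ cand H W X κ R x) ∧
      (∀ x ∈ Y, ∀ y ∈ Y, g x = g y → x = y) ∧
      (∀ x ∈ Y, ∀ y ∈ Y, ¬ QQ H x (g x) y (g y)) ∧ Pot H W κ a g Y ≤ W.card := by
  classical
  intro Y
  induction Y using Finset.induction_on with
  | empty =>
    intro _
    refine ⟨id, by simp, by simp, by simp, ?_⟩
    unfold Pot
    simp
  | insert a' Y ha'Y ih =>
    intro hYX
    have hYX' : Y ⊆ X := fun x hx => hYX (mem_insert_of_mem hx)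
    obtain ⟨g, g1, g2, g3, g4⟩ := ih hYX'
    have haX : a' ∈ X := hYX (mem_insert_self _ _)
    have haW : a' ∈ W := hX haX
    have hgk : ∀ x ∈ Y, cd H W x (g x) ≤ κ := fun x hx => (mem_filter.1 (g1 x hx)).2.2
    have hF : ∑ x ∈ Y, xi H W κ a' x (g x) ≤ E := by
      have := pot_bound H W X Y hX hYX' κ a hκ ha g hgk g4 a' haW
      exact_mod_cast this.trans hE
    -- the excluded candidates
    set C : Finset V := Y.biUnion (fun x => if H.Adj x a' ∧ H.Adj (g x) a' then
      (bl H W κ a').filter (fun y => H.Adj x y ∧ H.Adj (g x) y) else ∅) with hC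
    have hCc : C.card ≤ E := by
      refine le_trans card_biUnion_le (le_trans (sum_le_sum (fun x _ => ?_)) hF)
      unfold xi
      split_ifs
      · exact le_rfl
      · simp
    set A : Finset V := cand H W X κ R a' \ (Y.image g ∪ C) with hA
    have hYc : Y.card ≤ X.card := card_le_card hYX'
    have hAc : a ≤ A.card := by
      have e1 : (Y.image g ∪ C).card ≤ Y.card + E :=
        (card_union_le _ _).trans (Nat.add_le_add card_image_le hCc)
      have e2 : (cand H W X κ R a').card - (Y.image g ∪ C).card ≤ A.card :=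
        le_card_sdiff _ _
      have := hc a' haX
      omega
    have hAne : A.Nonempty := card_pos.1 (by omega)
    have hne : ∀ x ∈ Y, x ≠ a' := fun x hx h => ha'Y (h ▸ hx)
    have hκ' : (0 : ℝ) < κ := by exact_mod_cast hκ
    have haR : (0 : ℝ) < a := by exact_mod_cast ha
    have hAW : A ⊆ W := by
      intro z hz
      exact (mem_sdiff.1 (mem_filter.1 (mem_sdiff.1 hz).1).1).1
    -- averaging
    obtain ⟨z, hzA, hz⟩ : ∃ z ∈ A, Pot H W κ a (Function.update g a' z) (insert a' Y) ≤
        Pot H W κ a g Y := by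
      apply exists_le_of_sum_le hAne
      have e0 : ∀ z, Pot H W κ a (Function.update g a' z) (insert a' Y) =
          ∑ v ∈ W, fac H W κ a v a' z * ∏ x ∈ Y, fac H W κ a v x (g x) := by
        intro z
        unfold Pot
        refine sum_congr rfl (fun v _ => ?_)
        rw [prod_insert ha'Y, Function.update_self]
        congr 1
        refine prod_congr rfl (fun x hx => ?_)
        rw [Function.update_of_ne (hne x hx)]
      calc ∑ z ∈ A, Pot H W κ a (Function.update g a' z) (insert a' Y)
          = ∑ z ∈ A, ∑ v ∈ W, fac H W κ a v a' z * ∏ x ∈ Y, fac H W κ a v x (g x) :=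
            sum_congr rfl (fun z _ => e0 z)
        _ = ∑ v ∈ W, (∑ z ∈ A, fac H W κ a v a' z) * ∏ x ∈ Y, fac H W κ a v x (g x) := by
            rw [sum_comm]
            refine sum_congr rfl (fun v _ => ?_)
            rw [sum_mul]
        _ ≤ ∑ v ∈ W, (A.card : ℝ) * ∏ x ∈ Y, fac H W κ a v x (g x) := by
            refine sum_le_sum (fun v _ => ?_)
            refine mul_le_mul_of_nonneg_right ?_
              (prod_pos (fun x _ => fac_pos H W κ a v x (g x))).le
            unfold fac
            rw [← sum_div, div_le_iff₀ (by positivity), sum_add_distrib, ← sum_div]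
            have e1 : (∑ z ∈ A, (xi H W κ v a' z : ℝ)) ≤ κ * Mx H W κ v a' := by
              have := (sum_le_sum_of_subset (f := fun z => xi H W κ v a' z) hAW).trans
                (sum_xi H W κ v a')
              exact_mod_cast this
            have e2 : (∑ z ∈ A, (xi H W κ v a' z : ℝ)) / κ ≤ Mx H W κ v a' := by
              rw [div_le_iff₀ hκ']
              linarith
            have e3 : (Mx H W κ v a' : ℝ) ≤ A.card * ((Mx H W κ v a' : ℝ) / a) := by
              rw [mul_div_assoc', le_div_iff₀ haR, mul_comm]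
              exact mul_le_mul_of_nonneg_right (by exact_mod_cast hAc) (by positivity)
            have e4 : ∑ z ∈ A, (1 : ℝ) = A.card := by simp
            rw [e4, mul_add, mul_one]
            linarith
        _ = ∑ z ∈ A, Pot H W κ a g Y := by
            rw [← mul_sum, sum_const, nsmul_eq_mul]
            rfl
    have hzc := mem_filter.1 (mem_sdiff.1 hzA).1
    have hzn := (mem_sdiff.1 hzA).2
    rw [mem_union, not_or, mem_image, hC, mem_biUnion] at hzn
    obtain ⟨hz1, hz2⟩ := hzn
    push Not at hz1 hz2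
    have hzW : z ∈ W := hAW hzA
    have hga : Function.update g a' z a' = z := Function.update_self _ _ _
    have hgx : ∀ x ∈ Y, Function.update g a' z x = g x := fun x hx =>
      Function.update_of_ne (hne x hx) _ _
    have hconf : ∀ x ∈ Y, ¬ QQ H a' z x (g x) := by
      intro x hx hq
      apply hz2 x hx
      rw [if_pos ⟨hq.1.symm, hq.2.1.symm⟩, mem_filter]
      refine ⟨mem_filter.2 ⟨hzW, hR _ _ hzc.2.1, hzc.2.2⟩, hq.2.2.1.symm, hq.2.2.2.symm⟩
    refine ⟨Function.update g a' z, ?_, ?_, ?_, hz.trans g4⟩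
    · intro x hx
      rcases mem_insert.1 hx with hx' | hx'
      · rw [hx', hga]; exact (mem_sdiff.1 hzA).1
      · rw [hgx x hx']; exact g1 x hx'
    · intro x hx y hy hxy
      rcases mem_insert.1 hx with hx' | hx' <;> rcases mem_insert.1 hy with hy' | hy'
      · rw [hx', hy']
      · rw [hx', hga, hgx y hy'] at hxy
        exact absurd hxy.symm (hz1 y hy')
      · rw [hy', hga, hgx x hx'] at hxy
        exact absurd hxy (hz1 x hx')
      · rw [hgx x hx', hgx y hy'] at hxy
        exact g2 x hx' y hy' hxy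
    · intro x hx y hy hq
      rcases mem_insert.1 hx with hx' | hx' <;> rcases mem_insert.1 hy with hy' | hy'
      · rw [hx', hy'] at hq
        exact H.irrefl hq.1
      · rw [hx', hga, hgx y hy'] at hq
        exact hconf y hy' hq
      · rw [hy', hga, hgx x hx'] at hq
        exact hconf x hx' hq.symm
      · rw [hgx x hx', hgx y hy'] at hq
        exact g3 x hx' y hy' hq

open Classical in
/-- partners for the vertices of `X` -/
theorem greedy (H : SimpleGraph V) [DecidableRel H.Adj] (W X : Finset V) (hX : X ⊆ W)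
    (κ a E : ℕ) (hκ : 0 < κ) (ha : 0 < a)
    (R : V → V → Prop) [DecidableRel R] (hR : ∀ x z, R x z → x ≠ z)
    (hE : 2 * κ * Real.log W.card + 2 * κ * (W.card * κ) / a ≤ (E : ℝ))
    (hc : ∀ x ∈ X, a + X.card + E ≤ (cand H W X κ R x).card) :
    ∃ g : V → V, (∀ x ∈ X, g x ∈ W \ X ∧ R x (g x) ∧ cd H W x (g x) ≤ κ) ∧
      (∀ x ∈ X, ∀ y ∈ X, g x = g y → x = y) ∧
      (∀ x ∈ X, ∀ y ∈ X, ¬ QQ H x (g x) y (g y)) ∧
      (∀ v ∈ W, (W.filter (fun y => v ≠ y ∧ cd H W v y ≤ κ ∧
        ∃ x ∈ X, QQ H x (g x) v y)).card ≤ E) := by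
  classical
  obtain ⟨g, g1, g2, g3, g4⟩ := greedy_aux H W X hX κ a E hκ ha R hR hE hc X
    (Finset.Subset.refl _)
  refine ⟨g, fun x hx => ?_, g2, g3, fun v hv => ?_⟩
  · have := mem_filter.1 (g1 x hx)
    exact ⟨this.1, this.2.1, this.2.2⟩
  · have hF : ∑ x ∈ X, xi H W κ v x (g x) ≤ E := by
      have := pot_bound H W X X hX (Finset.Subset.refl _) κ a hκ ha g
        (fun x hx => (mem_filter.1 (g1 x hx)).2.2) g4 v hv
      exact_mod_cast this.trans hE
    refine le_trans (card_le_card (t := X.biUnion (fun x => if H.Adj x v ∧ H.Adj (g x) v then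
      (bl H W κ v).filter (fun y => H.Adj x y ∧ H.Adj (g x) y) else ∅)) ?_)
      (le_trans card_biUnion_le (le_trans (sum_le_sum (fun x _ => ?_)) hF))
    · intro y hy
      rw [mem_filter] at hy
      obtain ⟨hyW, hvy, hcd, x, hx, hq⟩ := hy
      rw [mem_biUnion]
      refine ⟨x, hx, ?_⟩
      rw [if_pos ⟨hq.1, hq.2.2.1⟩, mem_filter]
      exact ⟨mem_filter.2 ⟨hyW, hvy, hcd⟩, hq.2.1, hq.2.2.2⟩
    · unfold xi
      split_ifs
      · exact le_rfl
      · simp

end Pool.Agent.H65.TW
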